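import Mathlib

/-!
# Regular pairs in a commutative ring
-/

universe u

open RingTheory.Sequence Pointwise

namespace Pool.Agent.Lib.MP_4f2529_ag

variable {A : Type u} [CommRing A]

lemma regular_quot (α β : A) (h2 : ∀ g h : A, β * g = α * h → ∃ f, g = α * f) :
    IsSMulRegular (QuotSMulTop α A) β := by
  intro a b hab
  obtain ⟨a, rfl⟩ := Submodule.Quotient.mk_surjective _ a
  obtain ⟨b, rfl⟩ := Submodule.Quotient.mk_surjective _ b
  change β • Submodule.Quotient.mk a = β • Submodule.Quotient.mk b at hab
  rw [← Submodule.Quotient.mk_smul, ← Submodule.Quotient.mk_smul, Submodule.Quotient.eq,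
    ← smul_sub, Submodule.mem_smul_pointwise_iff_exists] at hab
  rw [Submodule.Quotient.eq, Submodule.mem_smul_pointwise_iff_exists]
  obtain ⟨c, -, hc⟩ := hab
  obtain ⟨f, hf⟩ := h2 (a - b) c hc.symm
  exact ⟨f, trivial, hf.symm⟩

lemma isWeaklyRegular_two (α β : A) (h1 : IsSMulRegular A α)
    (h2 : ∀ g h : A, β * g = α * h → ∃ f, g = α * f) : IsWeaklyRegular A [α, β] := by
  rw [isWeaklyRegular_cons_iff, isWeaklyRegular_cons_iff]
  exact ⟨h1, regular_quot α β h2, IsWeaklyRegular.nil _ _⟩

/-- A criterion at a maximal ideal. -/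
lemma exists_regular_at [IsNoetherianRing A] (m : Ideal A) [m.IsMaximal] (α β : A) (hα : α ∈ m)
    (hβ : β ∈ m) (h1 : IsSMulRegular A α) (h2 : ∀ g h : A, β * g = α * h → ∃ f, g = α * f)
    (hmax : ∀ P : Ideal A, P.IsPrime → α ∈ P → β ∈ P → P.IsMaximal) :
    ∃ rs : List (Localization.AtPrime m),
    RingTheory.Sequence.IsRegular (Localization.AtPrime m) rs ∧
      ringKrullDim (Localization.AtPrime m) = rs.length := by
  have hw := isWeaklyRegular_two α β h1 h2
  have hreg := hw.isRegular_of_isLocalization_of_mem (Localization.AtPrime m) m (by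
    intro r hr
    simp only [List.mem_cons, List.not_mem_nil, or_false] at hr
    rcases hr with rfl | rfl
    · exact hα
    · exact hβ)
  refine ⟨_, hreg, ?_⟩
  apply le_antisymm
  · classical
    rw [IsLocalization.AtPrime.ringKrullDim_eq_height m]
    have hmin : m ∈ (Ideal.span (({α, β} : Finset A) : Set A)).minimalPrimes := by
      refine ⟨⟨inferInstance, ?_⟩, ?_⟩
      · rw [Ideal.span_le]
        intro z hz
        simp only [Finset.coe_insert, Finset.coe_singleton, Set.mem_insert_iff,
          Set.mem_singleton_iff] at hz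
        rcases hz with rfl | rfl
        · exact hα
        · exact hβ
      · rintro P ⟨hP, hP'⟩ hPm
        have hPmax := hmax P hP (hP' (Ideal.subset_span (by simp)))
          (hP' (Ideal.subset_span (by simp)))
        rw [hPmax.eq_of_le (Ideal.IsPrime.ne_top inferInstance) hPm]
    have h3 := Ideal.height_le_card_of_mem_minimalPrimes_span_finset hmin
    have h4 : (({α, β} : Finset A).card : ℕ∞) ≤ 2 := by
      exact_mod_cast Finset.card_le_two
    have h5 : m.height ≤ 2 := h3.trans h4
    have h6 : (List.map (algebraMap A (Localization.AtPrime m)) [α, β]).length = 2 := rfl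
    rw [h6]
    exact WithBot.coe_le_coe.2 h5
  · have h3 := ringKrullDim_add_length_eq_ringKrullDim_of_isRegular _ hreg
    rw [← h3]
    have h4 : 0 ≤ ringKrullDim (Localization.AtPrime m ⧸ Ideal.ofList
        (List.map (algebraMap A (Localization.AtPrime m)) [α, β])) := by
      have : Nontrivial (Localization.AtPrime m ⧸ Ideal.ofList
        (List.map (algebraMap A (Localization.AtPrime m)) [α, β])) := by
        rw [Ideal.Quotient.nontrivial_iff]
        have := hreg.2
        intro h
        apply this
        rw [h]
        simp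
      exact ringKrullDim_nonneg_of_nontrivial
    exact le_add_of_nonneg_left h4

end Pool.Agent.Lib.MP_4f2529_ag
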