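import Mathlib

/-!
# Projective monomial curves: definitions
-/

universe u

open MvPolynomial

namespace Pool.Agent.Lib.MP_4f2529_ag

noncomputable section

/-- The pseudo-Frobenius numbers of `T`. -/
def pseudoFrobenius (T : AddSubmonoid ℕ) : Set ℤ :=
  {x | (∀ s ∈ T, (s : ℤ) ≠ x) ∧ ∀ s ∈ T, s ≠ 0 → ∃ s' ∈ T, (s' : ℤ) = x + s}

/-- The type of a numerical semigroup. -/
def semigroupType (T : AddSubmonoid ℕ) : ℕ := (pseudoFrobenius T).ncard

/-- A ring is Cohen-Macaulay if it is Noetherian and each localization at a maximal ideal has a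
regular sequence whose length is the Krull dimension of the localization. -/
def IsCohenMacaulay (A : Type u) [CommRing A] : Prop :=
  IsNoetherianRing A ∧ ∀ (m : Ideal A) [m.IsMaximal], ∃ rs : List (Localization.AtPrime m),
    RingTheory.Sequence.IsRegular (Localization.AtPrime m) rs ∧
      ringKrullDim (Localization.AtPrime m) = rs.length

/-- The length of `Ext^n(A/m, A)`. -/
def extLength (A : Type u) [CommRing A] (m : Ideal A) (n : ℕ) : ℕ∞ :=
  Module.length A (CategoryTheory.Abelian.Ext (ModuleCat.of.{u} A (A ⧸ m))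
    (ModuleCat.of.{u} A A) n)

/-- The homogeneous coordinate ring `k[u^{a_i} v^{d - a_i}]`, `d = a_n`, of the projective
monomial curve given by `a_0, …, a_n`. -/
def coordRing (k : Type u) [Field k] {n : ℕ} (a : Fin (n + 1) → ℕ) :
    Subalgebra k (MvPolynomial (Fin 2) k) :=
  Algebra.adjoin k (Set.range fun i => X 0 ^ a i * X 1 ^ (a (Fin.last n) - a i))

/-- The irrelevant ideal of the coordinate ring: the elements without constant term. -/
def irrelevant (k : Type u) [Field k] {n : ℕ} (a : Fin (n + 1) → ℕ) : Ideal (coordRing k a) :=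
  RingHom.ker ((constantCoeff (R := k) (σ := Fin 2)).comp
    (algebraMap (coordRing k a) (MvPolynomial (Fin 2) k)))

/-- The projective monomial curve given by `a_0, …, a_n` is arithmetically Cohen-Macaulay of
type `t`: its (two-dimensional) coordinate ring `A` is Cohen-Macaulay and `Ext²_A(A/𝔪, A)` has
length `t`, for the irrelevant ideal `𝔪`. -/
def IsACMOfType (k : Type u) [Field k] {n : ℕ} (a : Fin (n + 1) → ℕ) (t : ℕ) : Prop :=
  IsCohenMacaulay (coordRing k a) ∧ extLength (coordRing k a) (irrelevant k a) 2 = t

end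

end Pool.Agent.Lib.MP_4f2529_ag
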