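import Mathlib

/-!
# Regular sequences in monomial subalgebras of `k[u,v]`
-/

universe u

open MvPolynomial

namespace Pool.Agent.Lib.MP_4f2529_ag

noncomputable section

variable {k : Type u} [Field k]

/-- the exponent of `v ^ d` -/
def e0 (d : ℕ) : Fin 2 →₀ ℕ := Finsupp.single 1 d

/-- the exponent of `u ^ d` -/
def en (d : ℕ) : Fin 2 →₀ ℕ := Finsupp.single 0 d

section iter

variable {S : AddSubmonoid (Fin 2 →₀ ℕ)} {d : ℕ} (h0 : e0 d ∈ S) (hn : en d ∈ S)
  (hCM : ∀ s, s + e0 d ∈ S → s + en d ∈ S → s ∈ S)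

include hn hCM in
lemma iter_cm1 (i : ℕ) : ∀ s, s + e0 d ∈ S → s + i • en d ∈ S → s ∈ S := by
  induction i with
  | zero =>
    intro s _ h
    simpa using h
  | succ i ih =>
    intro s h1 h2
    apply hCM s h1
    apply ih (s + en d)
    · have := S.add_mem h1 hn
      rwa [add_right_comm] at this
    · have e : s + en d + i • en d = s + (i + 1) • en d := by
        rw [succ_nsmul]
        abel
      rwa [e]

include h0 hn hCM in
lemma iter_cm (i j : ℕ) : ∀ s, s + j • e0 d ∈ S → s + i • en d ∈ S → s ∈ S := by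
  induction j with
  | zero =>
    intro s h _
    simpa using h
  | succ j ih =>
    intro s h1 h2
    apply iter_cm1 hn hCM i s _ h2
    apply ih (s + e0 d)
    · have e : s + e0 d + j • e0 d = s + (j + 1) • e0 d := by
        rw [succ_nsmul]
        abel
      rwa [e]
    · have := S.add_mem h2 h0
      rwa [add_right_comm] at this

end iter

section main

variable {S : AddSubmonoid (Fin 2 →₀ ℕ)} {d : ℕ} (h0 : e0 d ∈ S) (hn : en d ∈ S)
  (hCM : ∀ s, s + e0 d ∈ S → s + en d ∈ S → s ∈ S)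
  {α β : MvPolynomial (Fin 2) k} (hα0 : α ≠ 0) (hβ0 : β ≠ 0)
  (hα : ∀ s ∈ α.support, ∃ j : ℕ, s = j • e0 d) (hβ : ∀ s ∈ β.support, ∃ i : ℕ, s = i • en d)
  {A : Subalgebra k (MvPolynomial (Fin 2) k)} (hA : ∀ f, f ∈ A ↔ ∀ s ∈ f.support, s ∈ S)

include h0 hn hCM hα0 hβ0 hα hβ hA in
lemma mem_of_mul_mem (f : MvPolynomial (Fin 2) k) (h1 : α * f ∈ A) (h2 : β * f ∈ A) : f ∈ A := by
  classical
  have hαA : α ∈ A := by
    rw [hA]
    intro s hs
    obtain ⟨j, rfl⟩ := hα s hs
    exact S.nsmul_mem h0 j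
  have hβA : β ∈ A := by
    rw [hA]
    intro s hs
    obtain ⟨j, rfl⟩ := hβ s hs
    exact S.nsmul_mem hn j
  -- split `f`
  let g : MvPolynomial (Fin 2) k := ∑ s ∈ f.support.filter (fun s => s ∈ S), monomial s (f.coeff s)
  let h : MvPolynomial (Fin 2) k := ∑ s ∈ f.support.filter (fun s => s ∉ S), monomial s (f.coeff s)
  have hfgh : f = g + h := by
    conv_lhs => rw [f.as_sum]
    rw [← Finset.sum_filter_add_sum_filter_not f.support (fun s => s ∈ S)]
  have hgA : g ∈ A := by
    apply A.sum_mem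
    intro s hs
    rw [hA]
    intro s' hs'
    have := MvPolynomial.support_monomial_subset hs'
    rw [Finset.mem_singleton] at this
    rw [this]
    exact (Finset.mem_filter.1 hs).2
  have hh : ∀ s ∈ h.support, s ∉ S := by
    intro s hs
    have h3 := MvPolynomial.support_sum hs
    rw [Finset.mem_biUnion] at h3
    obtain ⟨s', hs', hs''⟩ := h3
    have := MvPolynomial.support_monomial_subset hs''
    rw [Finset.mem_singleton] at this
    rw [this]
    exact (Finset.mem_filter.1 hs').2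
  have h3 : α * h ∈ A := by
    have e : α * h = α * f - α * g := by rw [hfgh]; ring
    rw [e]
    exact A.sub_mem h1 (A.mul_mem hαA hgA)
  have h4 : β * h ∈ A := by
    have e : β * h = β * f - β * g := by rw [hfgh]; ring
    rw [e]
    exact A.sub_mem h2 (A.mul_mem hβA hgA)
  by_cases hh0 : h = 0
  · rw [hfgh, hh0, add_zero]
    exact hgA
  · exfalso
    let o : MonomialOrder (Fin 2) := MonomialOrder.lex
    have hs : o.degree h ∉ S := hh _ (o.degree_mem_support hh0)
    apply hs
    have h5 : o.degree α + o.degree h ∈ S := by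
      rw [← o.degree_mul hα0 hh0]
      exact (hA _).1 h3 _ (o.degree_mem_support (mul_ne_zero hα0 hh0))
    have h6 : o.degree β + o.degree h ∈ S := by
      rw [← o.degree_mul hβ0 hh0]
      exact (hA _).1 h4 _ (o.degree_mem_support (mul_ne_zero hβ0 hh0))
    obtain ⟨j, hj⟩ := hα _ (o.degree_mem_support hα0)
    obtain ⟨i, hi⟩ := hβ _ (o.degree_mem_support hβ0)
    rw [hj, add_comm] at h5
    rw [hi, add_comm] at h6
    exact iter_cm h0 hn hCM i j _ h5 h6

include hα0 hβ0 hα hβ in
lemma isRelPrime_ab : IsRelPrime α β := by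
  intro c hc1 hc2
  obtain ⟨c1, rfl⟩ := hc1
  obtain ⟨c2, rfl⟩ := hc2
  have hc0 : c ≠ 0 := left_ne_zero_of_mul hα0
  have hd0 : degreeOf 0 c = 0 := by
    have h1 : degreeOf 0 (c * c1) ≤ 0 := by
      rw [degreeOf_le_iff]
      intro s hs
      obtain ⟨j, rfl⟩ := hα s hs
      simp [e0]
    rw [degreeOf_mul_eq hc0 (right_ne_zero_of_mul hα0)] at h1
    omega
  have hd1 : degreeOf 1 c = 0 := by
    have h1 : degreeOf 1 (c * c2) ≤ 0 := by
      rw [degreeOf_le_iff]
      intro s hs
      obtain ⟨j, rfl⟩ := hβ s hs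
      simp [en]
    rw [degreeOf_mul_eq hc0 (right_ne_zero_of_mul hβ0)] at h1
    omega
  have hsupp : ∀ s ∈ c.support, s = 0 := by
    intro s hs
    have h1 := (degreeOf_le_iff (n := 0) (f := c) (d := 0)).1 hd0.le s hs
    have h2 := (degreeOf_le_iff (n := 1) (f := c) (d := 0)).1 hd1.le s hs
    ext i
    fin_cases i
    · simpa using h1
    · simpa using h2
  have hc : c = C (c.coeff 0) := by
    ext s
    rw [coeff_C]
    split_ifs with h
    · rw [h]
    · by_contra h3
      exact h (hsupp s (mem_support_iff.2 h3)).symm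
  rw [hc]
  apply IsUnit.map
  rw [isUnit_iff_ne_zero]
  intro h
  apply hc0
  rw [hc, h, C_0]

include h0 hn hCM hα0 hβ0 hα hβ hA in
lemma weakly_regular_pair (g h : MvPolynomial (Fin 2) k) (hg : g ∈ A) (hh : h ∈ A)
    (e : β * g = α * h) : ∃ f ∈ A, g = α * f := by
  have h1 : α ∣ β * g := ⟨h, e⟩
  obtain ⟨f, hf⟩ := (isRelPrime_ab hα0 hβ0 hα hβ).dvd_of_dvd_mul_left h1
  refine ⟨f, ?_, hf⟩
  apply mem_of_mul_mem h0 hn hCM hα0 hβ0 hα hβ hA
  · rwa [← hf]
  · have h2 : α * (β * f) = α * h := by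
      rw [← e, hf]
      ring
    rw [mul_left_cancel₀ hα0 h2]
    exact hh

end main

end

end Pool.Agent.Lib.MP_4f2529_ag
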