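import Mathlib
import Pool.Agent.Lib.MP_4f2529_ag.Poly
import Pool.Agent.Lib.MP_4f2529_ag.Abs
import Pool.Agent.Lib.MP_4f2529_ag.Defs

/-!
# Monomial subalgebras with the exchange property are Cohen-Macaulay
-/

universe u

open MvPolynomial RingTheory.Sequence

namespace Pool.Agent.Lib.MP_4f2529_ag

noncomputable section

variable {k : Type u} [Field k]

lemma X_pow_pow (j : Fin 2) (d i : ℕ) :
    ((X j ^ d : MvPolynomial (Fin 2) k)) ^ i = monomial (i • Finsupp.single j d) 1 := by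
  rw [← pow_mul, X_pow_eq_monomial]
  congr 1
  rw [Finsupp.smul_single]
  congr 1
  rw [smul_eq_mul, mul_comm]

lemma aeval_coeff (p : Polynomial k) (j : Fin 2) (d : ℕ) (s : Fin 2 →₀ ℕ) :
    (Polynomial.aeval (X j ^ d : MvPolynomial (Fin 2) k) p).coeff s =
      ∑ i ∈ Finset.range (p.natDegree + 1), if i • Finsupp.single j d = s then p.coeff i else 0 := by
  classical
  rw [Polynomial.aeval_eq_sum_range, coeff_sum]
  apply Finset.sum_congr rfl
  intro i _
  rw [coeff_smul, X_pow_pow, coeff_monomial]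
  split_ifs <;> simp

lemma aeval_supp (p : Polynomial k) (j : Fin 2) (d : ℕ) :
    ∀ s ∈ (Polynomial.aeval (X j ^ d : MvPolynomial (Fin 2) k) p).support,
      ∃ i : ℕ, s = i • Finsupp.single j d := by
  classical
  intro s hs
  rw [mem_support_iff, aeval_coeff] at hs
  obtain ⟨i, _, hi⟩ := Finset.exists_ne_zero_of_sum_ne_zero hs
  refine ⟨i, ?_⟩
  by_contra h
  exact hi (if_neg (Ne.symm h))

lemma aeval_ne_zero {p : Polynomial k} (hp : p ≠ 0) (j : Fin 2) {d : ℕ} (hd : 0 < d) :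
    Polynomial.aeval (X j ^ d : MvPolynomial (Fin 2) k) p ≠ 0 := by
  classical
  intro h
  have h1 := congrArg (fun f => f.coeff (p.natDegree • Finsupp.single j d)) h
  simp only [aeval_coeff, coeff_zero] at h1
  rw [Finset.sum_eq_single p.natDegree] at h1
  · rw [if_pos rfl] at h1
    exact hp (Polynomial.leadingCoeff_eq_zero.1 h1)
  · intro i _ hi
    rw [if_neg]
    intro h2
    have h3 := congrArg (fun f => f j) h2
    simp at h3
    rcases h3 with h3 | h3
    · exact hi h3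
    · omega
  · intro h2
    exact absurd (Finset.mem_range.2 (Nat.lt_succ_self _)) h2

section

variable {S : AddSubmonoid (Fin 2 →₀ ℕ)} {d : ℕ} (hd : 0 < d) (h0 : e0 d ∈ S) (hn : en d ∈ S)
  (hCM : ∀ s, s + e0 d ∈ S → s + en d ∈ S → s ∈ S)
  {A : Subalgebra k (MvPolynomial (Fin 2) k)} (hA : ∀ f, f ∈ A ↔ ∀ s ∈ f.support, s ∈ S)

include h0 hA in
lemma memx : (X 1 ^ d : MvPolynomial (Fin 2) k) ∈ A := by
  rw [hA]
  intro s hs
  rw [X_pow_eq_monomial] at hs
  have := support_monomial_subset hs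
  rw [Finset.mem_singleton] at this
  rw [this]
  exact h0

include hn hA in
lemma memy : (X 0 ^ d : MvPolynomial (Fin 2) k) ∈ A := by
  rw [hA]
  intro s hs
  rw [X_pow_eq_monomial] at hs
  have := support_monomial_subset hs
  rw [Finset.mem_singleton] at this
  rw [this]
  exact hn

/-- `v ^ d` as an element of `A` -/
abbrev xx : A := ⟨X 1 ^ d, memx h0 hA⟩

/-- `u ^ d` as an element of `A` -/
abbrev yy : A := ⟨X 0 ^ d, memy hn hA⟩

lemma coe_aeval (z : A) (p : Polynomial k) : ((Polynomial.aeval z p : A) :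
    MvPolynomial (Fin 2) k) = Polynomial.aeval (z : MvPolynomial (Fin 2) k) p := by
  change A.val (Polynomial.aeval z p) = _
  rw [← Polynomial.aeval_algHom_apply]
  rfl

include hd in
lemma regular_p {p : Polynomial k} (hp : p ≠ 0) :
    IsSMulRegular A (Polynomial.aeval (xx h0 hA) p) := by
  intro a b hab
  apply Subtype.ext
  have h1 := congrArg (fun z : A => (z : MvPolynomial (Fin 2) k)) hab
  simp only [smul_eq_mul, MulMemClass.coe_mul, coe_aeval] at h1
  exact mul_left_cancel₀ (aeval_ne_zero hp 1 hd) h1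

include hd hCM in
lemma regular_q {p q : Polynomial k} (hp : p ≠ 0) (hq : q ≠ 0) (g h : A)
    (e : Polynomial.aeval (yy hn hA) q * g = Polynomial.aeval (xx h0 hA) p * h) :
    ∃ f, g = Polynomial.aeval (xx h0 hA) p * f := by
  have h1 := congrArg (fun z : A => (z : MvPolynomial (Fin 2) k)) e
  simp only [MulMemClass.coe_mul, coe_aeval] at h1
  obtain ⟨f, hf, hf'⟩ := weakly_regular_pair h0 hn hCM (aeval_ne_zero hp 1 hd)
    (aeval_ne_zero hq 0 hd) (aeval_supp p 1 d) (aeval_supp q 0 d) hA g h g.2 h.2 h1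
  refine ⟨⟨f, hf⟩, ?_⟩
  apply Subtype.ext
  simp only [MulMemClass.coe_mul, coe_aeval]
  exact hf'

variable {G : Set (MvPolynomial (Fin 2) k)} (hG : A = Algebra.adjoin k G)
  (hGd : ∀ g ∈ G, g ^ d ∈ Algebra.adjoin k {(X 1 ^ d : MvPolynomial (Fin 2) k), X 0 ^ d})

include hd hG hGd in
/-- quotients of `A` in which the images of `x` and `y` are algebraic are integral -/
lemma isIntegral_quot (P : Ideal A) (hx : (X 1 ^ d : MvPolynomial (Fin 2) k) ∈ A)
    (hy : (X 0 ^ d : MvPolynomial (Fin 2) k) ∈ A) {p q : Polynomial k} (hp : p ≠ 0) (hq : q ≠ 0)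
    (hpP : Polynomial.aeval (⟨X 1 ^ d, hx⟩ : A) p ∈ P)
    (hqP : Polynomial.aeval (⟨X 0 ^ d, hy⟩ : A) q ∈ P) : Algebra.IsIntegral k (A ⧸ P) := by
  let π : A →ₐ[k] A ⧸ P := Ideal.Quotient.mkₐ k P
  let B : Subalgebra k A := (integralClosure k (A ⧸ P)).comap π
  have key : ∀ (z : A) (r : Polynomial k), r ≠ 0 → Polynomial.aeval z r ∈ P → z ∈ B := by
    intro z r hr hz
    change IsIntegral k (π z)
    apply IsAlgebraic.isIntegral
    refine ⟨r, hr, ?_⟩
    rw [Polynomial.aeval_algHom_apply]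
    exact Ideal.Quotient.eq_zero_iff_mem.2 hz
  have hxB := key _ p hp hpP
  have hyB := key _ q hq hqP
  have h1 : Algebra.adjoin k {(X 1 ^ d : MvPolynomial (Fin 2) k), X 0 ^ d} ≤ B.map A.val := by
    rw [Algebra.adjoin_le_iff]
    rintro z (rfl | rfl)
    · exact ⟨_, hxB, rfl⟩
    · exact ⟨_, hyB, rfl⟩
  have h2 : A ≤ B.map A.val := by
    conv_lhs => rw [hG]
    rw [Algebra.adjoin_le_iff]
    intro g hg
    have hgA : g ∈ A := by
      rw [hG]
      exact Algebra.subset_adjoin hg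
    obtain ⟨b, hb, hb'⟩ := h1 (hGd g hg)
    refine ⟨⟨g, hgA⟩, ?_, rfl⟩
    change IsIntegral k (π ⟨g, hgA⟩)
    apply IsIntegral.of_pow hd
    rw [← map_pow]
    have e : (⟨g, hgA⟩ : A) ^ d = b := by
      apply Subtype.ext
      exact hb'.symm
    rw [e]
    exact hb
  refine ⟨fun z => ?_⟩
  obtain ⟨a, rfl⟩ := Ideal.Quotient.mk_surjective z
  obtain ⟨b, hb, hb'⟩ := h2 a.2
  have : b = a := Subtype.ext hb'
  rw [← this]
  exact hb

include hd h0 hn hCM hA hG hGd in
theorem isCohenMacaulay_of (hfin : G.Finite) : IsCohenMacaulay A := by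
  have hfg : A.FG := by
    rw [hG, ← hfin.coe_toFinset]
    exact Subalgebra.fg_adjoin_finset _
  have hft : Algebra.FiniteType k A := (Subalgebra.fg_iff_finiteType A).1 hfg
  have hnoeth : IsNoetherianRing A := Algebra.FiniteType.isNoetherianRing k A
  refine ⟨hnoeth, fun m hm => ?_⟩
  have hfin' : Module.Finite k (A ⧸ m) := by
    let := Ideal.Quotient.field m
    exact finite_of_finite_type_of_isJacobsonRing k (A ⧸ m)
  have halg : ∀ z : A, ∃ p : Polynomial k, p ≠ 0 ∧ Polynomial.aeval z p ∈ m := by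
    intro z
    have hint : IsIntegral k (Ideal.Quotient.mkₐ k m z) := Algebra.IsIntegral.isIntegral _
    refine ⟨minpoly k (Ideal.Quotient.mkₐ k m z), minpoly.ne_zero hint, ?_⟩
    rw [← Ideal.Quotient.eq_zero_iff_mem]
    change Ideal.Quotient.mkₐ k m (Polynomial.aeval z _) = 0
    rw [← Polynomial.aeval_algHom_apply, minpoly.aeval]
  obtain ⟨p, hp, hpm⟩ := halg (xx h0 hA)
  obtain ⟨q, hq, hqm⟩ := halg (yy hn hA)
  refine exists_regular_at m _ _ hpm hqm (regular_p hd h0 hA hp)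
    (regular_q hd h0 hn hCM hA hp hq) ?_
  intro P hP h1 h2
  have := isIntegral_quot hd hG hGd P (memx h0 hA) (memy hn hA) hp hq h1 h2
  apply Ideal.Quotient.maximal_of_isField
  exact isField_of_isIntegral_of_isField' (Field.toIsField k)

end

end

end Pool.Agent.Lib.MP_4f2529_ag
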