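import Mathlib

/-!
# Numerical semigroups: the auxiliary semigroup with reversed pseudo-Frobenius numbers
-/

namespace Pool.Agent.Lib.MP_4f2529_ag

/-- `z` is an element of `T`, for an integer `z` -/
def tz (T : AddSubmonoid ℕ) (z : ℤ) : Prop := ∃ s ∈ T, (s : ℤ) = z

/-- `z` is a pseudo-Frobenius number of `T` -/
def PF (T : AddSubmonoid ℕ) (z : ℤ) : Prop := ¬ tz T z ∧ ∀ s, tz T s → s ≠ 0 → tz T (z + s)

variable {T : AddSubmonoid ℕ}

lemma tz_zero : tz T 0 := ⟨0, T.zero_mem, rfl⟩

lemma tz_add {a b : ℤ} (ha : tz T a) (hb : tz T b) : tz T (a + b) := by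
  obtain ⟨s, hs, rfl⟩ := ha
  obtain ⟨s', hs', rfl⟩ := hb
  exact ⟨s + s', T.add_mem hs hs', by push_cast; rfl⟩

lemma tz_nonneg {a : ℤ} (ha : tz T a) : 0 ≤ a := by
  obtain ⟨s, hs, rfl⟩ := ha
  exact Int.natCast_nonneg s

lemma tz_natCast {n : ℕ} : tz T (n : ℤ) ↔ n ∈ T := by
  constructor
  · rintro ⟨s, hs, h⟩
    have : s = n := by exact_mod_cast h
    rwa [← this]
  · intro h
    exact ⟨n, h, rfl⟩

/-- the Frobenius number -/
lemma exists_frob (hT : {x | x ∉ T}.Finite) (h1 : ¬ tz T 1) :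
    ∃ F : ℤ, 1 ≤ F ∧ ¬ tz T F ∧ ∀ z, F < z → tz T z := by
  have hne : {x | x ∉ T}.Nonempty := ⟨1, fun h => h1 (tz_natCast.2 h)⟩
  obtain ⟨F, hF, hmax⟩ := hT.exists_maximal hne
  have hF1 : F ≠ 0 := by
    rintro rfl
    exact hF T.zero_mem
  refine ⟨F, by omega, fun h => hF (tz_natCast.1 h), fun z hz => ?_⟩
  obtain ⟨n, rfl⟩ := Int.eq_ofNat_of_zero_le (by omega : 0 ≤ z)
  by_contra hn
  have hn' : n ∉ T := fun h => hn (tz_natCast.2 h)
  have := hmax hn' (by
    show F ≤ n
    have : (F : ℤ) < (n : ℤ) := hz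
    omega)
  have h2 : (F : ℤ) < (n : ℤ) := hz
  have h3 : n ≤ F := this
  omega

section

variable {F : ℤ} (hF1 : 1 ≤ F) (hF : ¬ tz T F) (hgt : ∀ z, F < z → tz T z)

include hgt

/-- every non-element is below a pseudo-Frobenius number -/
lemma exists_pf {z : ℤ} (hz : ¬ tz T z) : ∃ s, tz T s ∧ PF T (z + s) := by
  -- choose `s` maximal with `z + s ∉ T`
  have hb : ∃ b : ℤ, ∀ s : ℤ, (tz T s ∧ ¬ tz T (z + s)) → s ≤ b := by
    refine ⟨F - z, fun s hs => ?_⟩
    by_contra h
    exact hs.2 (hgt _ (by omega))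
  obtain ⟨s, ⟨hs, hs'⟩, hmax⟩ := Int.exists_greatest_of_bdd hb ⟨0, tz_zero, by rwa [add_zero]⟩
  refine ⟨s, hs, hs', fun s' h1 h2 => ?_⟩
  by_contra h3
  have h4 := hmax (s + s') ⟨tz_add hs h1, by rwa [← add_assoc]⟩
  have h5 := tz_nonneg h1
  omega

lemma pf_le {z : ℤ} (h : PF T z) : z ≤ F := by
  by_contra hc
  exact h.1 (hgt z (by omega))

include hF in
lemma pf_frob : PF T F := by
  refine ⟨hF, fun s hs hs0 => hgt _ ?_⟩
  have := tz_nonneg hs
  omega

/-- pseudo-Frobenius numbers are positive -/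
lemma pf_pos (h1 : ¬ tz T 1) {z : ℤ} (h : PF T z) : 1 ≤ z := by
  by_contra hc
  have hz0 : z ≠ 0 := by
    rintro rfl
    exact h.1 tz_zero
  have hz : z < 0 := by omega
  have hdvd : ∀ n : ℕ, tz T (n : ℤ) → z ∣ (n : ℤ) := by
    intro n
    induction n using Nat.strong_induction_on with
    | _ n ih =>
      intro hn
      by_cases hn0 : n = 0
      · subst hn0
        simp
      · have h2 := h.2 n hn (by exact_mod_cast hn0)
        have h3 := tz_nonneg h2
        obtain ⟨k, hk⟩ := Int.eq_ofNat_of_zero_le h3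
        have hk' : z + n = (k : ℤ) := hk
        have h4 := ih k (by omega) (by rw [← hk']; exact h2)
        rw [← hk'] at h4
        exact (Int.dvd_add_right (dvd_refl z)).1 h4
  obtain ⟨k, hk⟩ := Int.eq_ofNat_of_zero_le (by
    have := abs_nonneg F
    omega : 0 ≤ |F| + 1)
  have hk' : |F| + 1 = (k : ℤ) := hk
  have hle := le_abs_self F
  have h2 : z ∣ (k : ℤ) := hdvd k (hgt _ (by omega))
  have h3 : z ∣ ((k + 1 : ℕ) : ℤ) := hdvd (k + 1) (hgt _ (by push_cast; omega))
  have h4 : z ∣ 1 := by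
    push_cast at h3
    exact (Int.dvd_add_right h2).1 h3
  have h5 : z = -1 := by
    rcases Int.isUnit_iff.1 (isUnit_of_dvd_one h4) with h | h
    · omega
    · exact h
  subst h5
  -- now everything is in `T`
  have h6 : ∀ j : ℕ, j ≤ k → 1 ≤ k - j → tz T ((k - j : ℕ) : ℤ) := by
    intro j
    induction j with
    | zero =>
      intro _ _
      exact hgt _ (by simp only [Nat.sub_zero]; omega)
    | succ j ih =>
      intro hj hj1
      have h7 := ih (by omega) (by omega)
      have h8 := h.2 _ h7 (by omega)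
      have h9 : (-1 : ℤ) + ((k - j : ℕ) : ℤ) = ((k - (j + 1) : ℕ) : ℤ) := by omega
      rwa [h9] at h8
  apply h1
  have hk1 : 1 ≤ k := by
    have := abs_nonneg F
    omega
  have := h6 (k - 1) (by omega) (by omega)
  have h10 : ((k - (k - 1) : ℕ) : ℤ) = 1 := by omega
  rwa [h10] at this

end

/-- All the data needed for the construction. -/
structure Data (T : AddSubmonoid ℕ) where
  /-- Frobenius number -/
  F : ℤ
  /-- smallest pseudo-Frobenius number -/
  f : ℤ
  f_pos : 1 ≤ f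
  nF : ¬ tz T F
  gt : ∀ z, F < z → tz T z
  pf_f : PF T f
  f_le : ∀ z, PF T z → f ≤ z

lemma exists_data (hT : {x | x ∉ T}.Finite) (h1 : ¬ tz T 1) : Nonempty (Data T) := by
  obtain ⟨F, hF1, hF, hgt⟩ := exists_frob hT h1
  obtain ⟨f, hf, hmin⟩ := Int.exists_least_of_bdd (P := fun z => PF T z)
    ⟨1, fun z hz => pf_pos hgt h1 hz⟩ ⟨F, pf_frob hF hgt⟩
  exact ⟨⟨F, f, pf_pos hgt h1 hf, hF, hgt, hf, hmin⟩⟩

namespace Data

variable (D : Data T)

lemma pf_F : PF T D.F := pf_frob D.nF D.gt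

lemma le_F {z : ℤ} (h : PF T z) : z ≤ D.F := pf_le D.gt h

lemma f_le_F : D.f ≤ D.F := D.f_le _ D.pf_F

/-- threshold -/
def N : ℤ := 2 * D.F + 2

/-- the centre of the reflection -/
def c : ℤ := 2 * D.N - 1 + D.f

/-- the auxiliary semigroup `U` -/
def uz (w : ℤ) : Prop := w = 0 ∨ (D.N ≤ w ∧ ¬ PF T (D.c - w))

lemma uz_zero : D.uz 0 := Or.inl rfl

lemma uz_nonneg {w : ℤ} (h : D.uz w) : 0 ≤ w := by
  have h1 := D.f_pos
  have h2 := D.f_le_F
  rcases h with h | h
  · omega
  · have := h.1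
    unfold N at this
    omega

lemma uz_large {w : ℤ} (h : 2 * D.N ≤ w) : D.uz w := by
  right
  have h1 := D.f_pos
  have h2 := D.f_le_F
  refine ⟨by unfold N at *; omega, fun hp => ?_⟩
  have h3 := D.f_le _ hp
  unfold c at h3
  omega

lemma uz_add {w w' : ℤ} (h : D.uz w) (h' : D.uz w') : D.uz (w + w') := by
  rcases h with h | h
  · rw [h, zero_add]
    exact h'
  · rcases h' with h' | h'
    · rw [h', add_zero]
      exact Or.inr h
    · apply D.uz_large
      linarith [h.1, h'.1]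

lemma not_uz_pf {z : ℤ} (h : PF T z) : ¬ D.uz (D.c - z) := by
  have h0 := D.f_pos
  have h1 := D.f_le_F
  have h2 := D.le_F h
  rintro (h3 | h3)
  · unfold c N at h3
    omega
  · apply h3.2
    rwa [sub_sub_cancel]

lemma uz_of_le {z : ℤ} (h : z ≤ D.F) (hp : ¬ PF T z) : D.uz (D.c - z) := by
  right
  have h0 := D.f_pos
  have h1 := D.f_le_F
  refine ⟨?_, by rwa [sub_sub_cancel]⟩
  unfold c N
  omega

lemma exists_of_not_uz {w : ℤ} (h : ¬ D.uz w) : ∃ u f, D.uz u ∧ PF T f ∧ w + u = D.c - f := by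
  have h0 := D.f_pos
  have h1 := D.f_le_F
  have hw0 : w ≠ 0 := fun e => h (Or.inl e)
  by_cases hp : PF T (D.c - w)
  · exact ⟨0, D.c - w, D.uz_zero, hp, by ring⟩
  have hwN : w < D.N := by
    by_contra hc
    exact h (Or.inr ⟨by omega, hp⟩)
  by_cases hneg : w < 0
  · refine ⟨D.c - D.f - w, D.f, D.uz_large ?_, D.pf_f, by ring⟩
    unfold c
    omega
  · by_cases hq : PF T (w + D.f)
    · have h2 := D.le_F hq
      refine ⟨D.c - D.F - w, D.F, Or.inr ⟨?_, fun h3 => ?_⟩, D.pf_F, by ring⟩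
      · unfold c N
        omega
      · have h4 := D.le_F h3
        have h5 : D.c - (D.c - D.F - w) = D.F + w := by ring
        rw [h5] at h4
        omega
    · refine ⟨D.c - D.f - w, D.f, Or.inr ⟨?_, ?_⟩, D.pf_f, by ring⟩
      · unfold c
        omega
      · have h5 : D.c - (D.c - D.f - w) = w + D.f := by ring
        rwa [h5]

/-- the degree of the two-sided curve -/
def m : ℤ := 4 * (D.c + D.F + 1)

/-- the degree -/
def d : ℤ := 4 * D.m - D.c

lemma bounds : 1 ≤ D.f ∧ D.f ≤ D.F ∧ D.N = 2 * D.F + 2 ∧ D.c = 2 * D.N - 1 + D.f ∧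
    D.m = 4 * (D.c + D.F + 1) ∧ D.d = 4 * D.m - D.c :=
  ⟨D.f_pos, D.f_le_F, rfl, rfl, rfl, rfl⟩

/-- the key combinatorial lemma -/
lemma exists_step (z : ℤ) (hz : ¬ tz T z) (hp : ¬ PF T z) (j : ℤ)
    (h1 : D.uz (D.c + j * D.m - z)) (h2 : ¬ D.uz (D.c + (j - 1) * D.m - z)) :
    ∃ a, tz T a ∧ 0 < a ∧ a ≤ D.m ∧ D.uz (D.m - a) ∧ ¬ tz T (z + a) ∧
      ¬ D.uz (D.c + j * D.m - z - a) := by
  obtain ⟨b1, b2, b3, b4, b5, b6⟩ := D.bounds
  have hm0 : 0 < D.m := by omega
  have htm : tz T D.m := D.gt _ (by omega)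
  by_cases hzm : tz T (z + D.m)
  swap
  · refine ⟨D.m, htm, hm0, le_refl _, by rw [sub_self]; exact D.uz_zero, hzm, ?_⟩
    have e : D.c + j * D.m - z - D.m = D.c + (j - 1) * D.m - z := by ring
    rwa [e]
  have hzm0 := tz_nonneg hzm
  -- general facts on `j`
  have hj1 := D.uz_nonneg h1
  have hj2 : D.c + (j - 1) * D.m - z < 2 * D.N := by
    by_contra hc
    exact h2 (D.uz_large (by omega))
  have hj0 : j ≤ 0 := by
    by_contra hc
    have h3 : 1 ≤ j := by omega
    have h4 : 0 ≤ (j - 1) * D.m := by nlinarith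
    have h5 : z ≤ D.F := by
      by_contra h6
      exact hz (D.gt _ (by omega))
    by_cases h6 : j = 1
    · subst h6
      have e : D.c + (1 - 1) * D.m - z = D.c - z := by ring
      rw [e] at h2
      exact h2 (D.uz_of_le h5 hp)
    · have h7 : 1 * D.m ≤ (j - 1) * D.m :=
        mul_le_mul_of_nonneg_right (by omega) hm0.le
      omega
  by_cases hzneg : z < 0
  swap
  · -- `z > 0` is a gap
    have hzF : z ≤ D.F := by
      by_contra h6
      exact hz (D.gt _ (by omega))
    have hj : j = 0 := by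
      by_contra hc
      have h3 : j * D.m ≤ -1 * D.m := by nlinarith [show j ≤ -1 by omega]
      omega
    subst hj
    obtain ⟨s, hs, hsp⟩ := exists_pf D.gt hz
    have hs0 : s ≠ 0 := by
      rintro rfl
      rw [add_zero] at hsp
      exact hp hsp
    have hs1 := tz_nonneg hs
    have hs2 := D.le_F hsp
    refine ⟨s, hs, by omega, by omega, D.uz_large (by omega), hsp.1, ?_⟩
    have e : D.c + 0 * D.m - z - s = D.c - (z + s) := by ring
    rw [e]
    exact D.not_uz_pf hsp
  · -- `z < 0`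
    by_cases hg : 2 * (-z) ≤ D.m
    · -- `g = -z` small
      have hj : j = 0 := by
        by_contra hc
        have h3 : j * D.m ≤ -1 * D.m := by nlinarith [show j ≤ -1 by omega]
        omega
      subst hj
      refine ⟨-z + D.F, D.gt _ (by omega), by omega, by omega, D.uz_large (by omega), ?_, ?_⟩
      · have e : z + (-z + D.F) = D.F := by ring
        rw [e]
        exact D.nF
      · have e : D.c + 0 * D.m - z - (-z + D.F) = D.c - D.F := by ring
        rw [e]
        exact D.not_uz_pf D.pf_F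
    · -- `g` large
      have hj : -1 ≤ j := by
        by_contra hc
        have h3 : j * D.m ≤ -2 * D.m := by nlinarith [show j ≤ -2 by omega]
        omega
      by_cases hj' : j = -1
      · subst hj'
        have e : D.c + -1 * D.m - z = D.c - (z + D.m) := by ring
        rw [e] at h1
        have h3 := D.uz_nonneg h1
        refine ⟨D.m - (2 * D.N + D.c + D.F), D.gt _ (by omega), by omega, by omega,
          D.uz_large (by omega), ?_, ?_⟩
        · intro h4
          have := tz_nonneg h4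
          omega
        · intro h4
          have := D.uz_nonneg h4
          omega
      · have hj'' : j = 0 := by omega
        subst hj''
        have e : D.c + (0 - 1) * D.m - z = D.c - (z + D.m) := by ring
        rw [e] at h2
        obtain ⟨u, f, hu, hf, huf⟩ := D.exists_of_not_uz h2
        have h3 := D.uz_nonneg hu
        have h4 := D.le_F hf
        have h5 := D.f_le _ hf
        have h6 : u = z + D.m - f := by linarith
        refine ⟨D.m - u, D.gt _ (by omega), by omega, by omega, by rwa [sub_sub_cancel], ?_, ?_⟩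
        · have e2 : z + (D.m - u) = f := by rw [h6]; ring
          rw [e2]
          exact hf.1
        · have e2 : D.c + 0 * D.m - z - (D.m - u) = D.c - f := by rw [h6]; ring
          rw [e2]
          exact D.not_uz_pf hf

end Data

end Pool.Agent.Lib.MP_4f2529_ag
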