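import Mathlib
import Pool.Agent.Lib.MP_4f2529_ag.Comb

/-!
# The affine semigroup of the curve
-/

namespace Pool.Agent.Lib.MP_4f2529_ag

namespace Data

variable {T : AddSubmonoid ℕ} (D : Data T)

/-- the small generators -/
def gen (a : ℤ) : Prop := tz T a ∧ D.uz (D.m - a)

/-- the affine semigroup -/
def InS (x y : ℤ) : Prop := ∃ K i : ℤ, 0 ≤ i ∧ i ≤ K ∧ x + y = K * D.d ∧ tz T (x - i * D.d) ∧
  D.uz ((K - i) * D.m - (x - i * D.d))

lemma gen_zero : D.gen 0 := by
  obtain ⟨b1, b2, b3, b4, b5, b6⟩ := D.bounds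
  exact ⟨tz_zero, D.uz_large (by omega)⟩

lemma gen_m : D.gen D.m := by
  obtain ⟨b1, b2, b3, b4, b5, b6⟩ := D.bounds
  exact ⟨D.gt _ (by omega), by rw [sub_self]; exact D.uz_zero⟩

lemma gen_nonneg {a : ℤ} (h : D.gen a) : 0 ≤ a := tz_nonneg h.1

lemma gen_le {a : ℤ} (h : D.gen a) : a ≤ D.m := by
  have := D.uz_nonneg h.2
  omega

lemma m_pos : 0 < D.m := by
  obtain ⟨b1, b2, b3, b4, b5, b6⟩ := D.bounds
  omega

lemma d_gt : D.m + 2 * D.N ≤ D.d := by
  obtain ⟨b1, b2, b3, b4, b5, b6⟩ := D.bounds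
  omega

lemma tz_d : tz T D.d := by
  obtain ⟨b1, b2, b3, b4, b5, b6⟩ := D.bounds
  exact D.gt _ (by omega)

/-- the two-sided curve is generated in degree one -/
lemma gen_sub (M : AddSubmonoid (ℤ × ℤ)) (hM : ∀ a, D.gen a → (a, D.d - a) ∈ M) :
    ∀ (K : ℕ) (x : ℤ), tz T x → D.uz (K * D.m - x) → (x, K * D.d - x) ∈ M := by
  obtain ⟨b1, b2, b3, b4, b5, b6⟩ := D.bounds
  have hm0 := D.m_pos
  intro K
  induction K with
  | zero =>
    intro x hx hu
    have h1 := tz_nonneg hx
    have h2 := D.uz_nonneg hu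
    have h3 : x = 0 := by
      push_cast at h2
      omega
    subst h3
    have : ((0 : ℤ), ((0 : ℕ) : ℤ) * D.d - 0) = 0 := by simp
    rw [this]
    exact M.zero_mem
  | succ K ih =>
    intro x hx hu
    push_cast at hu ⊢
    by_cases hK0 : K = 0
    · subst hK0
      have e : ((0 : ℕ) : ℤ) + 1 = 1 := by norm_num
      rw [e, one_mul] at hu ⊢
      exact hM x ⟨hx, hu⟩
    by_cases h1 : D.m + D.F + 1 ≤ x
    · have h2 : tz T (x - D.m) := D.gt _ (by omega)
      have h3 := ih (x - D.m) h2 (by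
        have e : (K : ℤ) * D.m - (x - D.m) = (K + 1) * D.m - x := by ring
        rwa [e])
      have h4 := M.add_mem h3 (hM D.m D.gen_m)
      have e : ((x - D.m, (K : ℤ) * D.d - (x - D.m)) + (D.m, D.d - D.m) : ℤ × ℤ) =
          (x, (K + 1) * D.d - x) := by
        rw [Prod.mk_add_mk]
        congr 1 <;> ring
      rwa [e] at h4
    by_cases h2 : D.m + 2 * D.N ≤ (K + 1) * D.m - x
    · have h3 := ih x hx (D.uz_large (by
        have e : (K : ℤ) * D.m - x = (K + 1) * D.m - x - D.m := by ring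
        rw [e]
        omega))
      have h4 := M.add_mem h3 (hM 0 D.gen_zero)
      have e : ((x, (K : ℤ) * D.d - x) + (0, D.d - 0) : ℤ × ℤ) =
          (x, (K + 1) * D.d - x) := by
        rw [Prod.mk_add_mk]
        congr 1 <;> ring
      rwa [e] at h4
    · have hK : K = 1 := by
        by_contra hne
        have h3 : (2 : ℤ) ≤ K := by
          have : 2 ≤ K := by omega
          exact_mod_cast this
        have h4 : 3 * D.m ≤ ((K : ℤ) + 1) * D.m :=
          mul_le_mul_of_nonneg_right (by omega) hm0.le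
        omega
      subst hK
      have e : (((1 : ℕ) : ℤ) + 1) = 2 := by norm_num
      rw [e] at h2 hu ⊢
      have h5 : D.gen (x / 2) := ⟨D.gt _ (by omega), D.uz_large (by omega)⟩
      have h6 : D.gen (x - x / 2) := ⟨D.gt _ (by omega), D.uz_large (by omega)⟩
      have h4 := M.add_mem (hM _ h5) (hM _ h6)
      have e : ((x / 2, D.d - x / 2) + (x - x / 2, D.d - (x - x / 2)) : ℤ × ℤ) =
          (x, 2 * D.d - x) := by
        rw [Prod.mk_add_mk]
        congr 1 <;> ring
      rwa [e] at h4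

lemma inS_sub (M : AddSubmonoid (ℤ × ℤ)) (hM : ∀ a, D.gen a → (a, D.d - a) ∈ M)
    (hd : (D.d, (0 : ℤ)) ∈ M) {x y : ℤ} (h : D.InS x y) : (x, y) ∈ M := by
  obtain ⟨K, i, hi, hiK, hxy, ht, hu⟩ := h
  obtain ⟨L, hL⟩ := Int.eq_ofNat_of_zero_le (sub_nonneg.2 hiK)
  obtain ⟨i', rfl⟩ := Int.eq_ofNat_of_zero_le hi
  have hL' : K - (i' : ℤ) = (L : ℤ) := hL
  rw [hL'] at hu
  have h1 := D.gen_sub M hM L _ ht hu
  have h2 := M.nsmul_mem hd i'
  have h3 := M.add_mem h1 h2
  have e : ((x - (i' : ℤ) * D.d, (L : ℤ) * D.d - (x - (i' : ℤ) * D.d)) + i' • (D.d, (0 : ℤ)) :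
      ℤ × ℤ) = (x, y) := by
    rw [Prod.smul_mk, Prod.mk_add_mk]
    have hL2 : (L : ℤ) = K - i' := hL'.symm
    rw [hL2]
    congr 1
    · simp
    · simp only [smul_zero, add_zero]
      linear_combination -hxy
  rwa [e] at h3

lemma inS_zero : D.InS 0 0 := ⟨0, 0, le_refl _, le_refl _, by ring, by simpa using tz_zero,
  by simpa using D.uz_zero⟩

lemma inS_gen {a : ℤ} (h : D.gen a) : D.InS a (D.d - a) :=
  ⟨1, 0, le_refl _, by norm_num, by ring, by simpa using h.1, by simpa using h.2⟩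

lemma inS_d : D.InS D.d 0 :=
  ⟨1, 1, by norm_num, le_refl _, by ring, by simpa using tz_zero, by simpa using D.uz_zero⟩

lemma inS_add {x y x' y' : ℤ} (h : D.InS x y) (h' : D.InS x' y') : D.InS (x + x') (y + y') := by
  obtain ⟨K, i, hi, hiK, hxy, ht, hu⟩ := h
  obtain ⟨K', i', hi', hiK', hxy', ht', hu'⟩ := h'
  refine ⟨K + K', i + i', by omega, by omega, by linear_combination hxy + hxy', ?_, ?_⟩
  · have := tz_add ht ht'
    have e : x - i * D.d + (x' - i' * D.d) = x + x' - (i + i') * D.d := by ring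
    rwa [e] at this
  · have := D.uz_add hu hu'
    have e : (K - i) * D.m - (x - i * D.d) + ((K' - i') * D.m - (x' - i' * D.d)) =
      (K + K' - (i + i')) * D.m - (x + x' - (i + i') * D.d) := by ring
    rwa [e] at this

lemma inS_nonneg {x y : ℤ} (h : D.InS x y) : 0 ≤ x ∧ 0 ≤ y := by
  obtain ⟨K, i, hi, hiK, hxy, ht, hu⟩ := h
  have h1 := tz_nonneg ht
  have h2 := D.uz_nonneg hu
  have h3 := D.m_pos
  have h4 := D.d_gt
  obtain ⟨b1, b2, b3, b4, b5, b6⟩ := D.bounds
  have h5 : 0 ≤ i * D.d := by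
    apply mul_nonneg hi
    omega
  have h6 : (K - i) * D.m ≤ (K - i) * D.d := by
    apply mul_le_mul_of_nonneg_left (by omega)
    omega
  refine ⟨by omega, ?_⟩
  nlinarith

/-- the Cohen-Macaulay property -/
lemma inS_cm {x y : ℤ} (h1 : D.InS x (y + D.d)) (h2 : D.InS (x + D.d) y) : D.InS x y := by
  obtain ⟨K, i, hi, hiK, hxy, ht, hu⟩ := h2
  have hd := D.d_gt
  by_cases hi0 : i = 0
  · subst hi0
    obtain ⟨K', i', hi', hiK', hxy', ht', hu'⟩ := h1
    obtain ⟨b1, b2, b3, b4, b5, b6⟩ := D.bounds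
    have hm := D.m_pos
    have htx : tz T x := by
      obtain ⟨i'', rfl⟩ := Int.eq_ofNat_of_zero_le hi'
      have h3 : ∀ n : ℕ, tz T ((n : ℤ) * D.d) := by
        intro n
        induction n with
        | zero => simpa using tz_zero
        | succ n ih =>
          have := tz_add ih D.tz_d
          have e : (n : ℤ) * D.d + D.d = ((n + 1 : ℕ) : ℤ) * D.d := by push_cast; ring
          rwa [e] at this
      have := tz_add ht' (h3 i'')
      have e : x - (i'' : ℤ) * D.d + (i'' : ℤ) * D.d = x := by ring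
      change tz T (x - (i'' : ℤ) * D.d + (i'' : ℤ) * D.d) at this
      rwa [e] at this
    have hu1 := D.uz_nonneg hu
    have hx0 := tz_nonneg htx
    have hK1 : 1 ≤ K := by
      by_contra hc
      have : K * D.m ≤ 0 := mul_nonpos_of_nonpos_of_nonneg (by omega) hm.le
      simp only [sub_zero, zero_mul] at hu1
      omega
    refine ⟨K - 1, 0, le_refl _, by omega, by linear_combination hxy, by simpa using htx,
      D.uz_large ?_⟩
    have e : (K - 1 - 0) * D.m - (x - 0 * D.d) =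
      ((K - 0) * D.m - (x + D.d - 0 * D.d)) + (D.d - D.m) := by ring
    rw [e]
    omega
  · refine ⟨K - 1, i - 1, by omega, by omega, by linear_combination hxy, ?_, ?_⟩
    · have e : x - (i - 1) * D.d = x + D.d - i * D.d := by ring
      rwa [e]
    · have e : (K - 1 - (i - 1)) * D.m - (x - (i - 1) * D.d) =
        (K - i) * D.m - (x + D.d - i * D.d) := by ring
      rwa [e]

/-- the Apéry set -/
def Ap (x y : ℤ) : Prop := D.InS x y ∧ ¬ D.InS (x - D.d) y ∧ ¬ D.InS x (y - D.d)

lemma tz_add_d {x i : ℤ} (hi : 0 ≤ i) (h : tz T (x - i * D.d)) : tz T x := by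
  obtain ⟨n, rfl⟩ := Int.eq_ofNat_of_zero_le hi
  have h3 : ∀ n : ℕ, tz T ((n : ℤ) * D.d) := by
    intro n
    induction n with
    | zero => simpa using tz_zero
    | succ n ih =>
      have := tz_add ih D.tz_d
      have e : (n : ℤ) * D.d + D.d = ((n + 1 : ℕ) : ℤ) * D.d := by push_cast; ring
      rwa [e] at this
  have := tz_add h (h3 n)
  change tz T (x - (n : ℤ) * D.d + (n : ℤ) * D.d) at this
  have e : x - (n : ℤ) * D.d + (n : ℤ) * D.d = x := by ring
  rwa [e] at this

lemma ap_iff {x y : ℤ} : D.Ap x y ↔ ∃ K : ℤ, x + y = K * D.d ∧ tz T x ∧ ¬ tz T (x - D.d) ∧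
    D.uz (K * D.m - x) ∧ ¬ D.uz ((K - 1) * D.m - x) := by
  obtain ⟨b1, b2, b3, b4, b5, b6⟩ := D.bounds
  have hm := D.m_pos
  have hd := D.d_gt
  constructor
  · rintro ⟨⟨K, i, hi, hiK, hxy, ht, hu⟩, h2, h3⟩
    have hi0 : i = 0 := by
      by_contra hc
      apply h2
      refine ⟨K - 1, i - 1, by omega, by omega, by linear_combination hxy, ?_, ?_⟩
      · have e : x - D.d - (i - 1) * D.d = x - i * D.d := by ring
        rwa [e]
      · have e : (K - 1 - (i - 1)) * D.m - (x - D.d - (i - 1) * D.d) =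
          (K - i) * D.m - (x - i * D.d) := by ring
        rwa [e]
    subst hi0
    rw [zero_mul, sub_zero, sub_zero] at hu
    rw [zero_mul, sub_zero] at ht
    have hx0 := tz_nonneg ht
    have hu0 := D.uz_nonneg hu
    refine ⟨K, hxy, ht, fun h4 => h2 ?_, hu, fun h4 => h3 ?_⟩
    · have h5 := tz_nonneg h4
      have hK1 : 1 ≤ K := by
        by_contra hc
        have : K * D.m ≤ 0 := mul_nonpos_of_nonpos_of_nonneg (by omega) hm.le
        omega
      refine ⟨K - 1, 0, le_refl _, by omega, by linear_combination hxy, by simpa using h4,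
        D.uz_large ?_⟩
      have e : (K - 1 - 0) * D.m - (x - D.d - 0 * D.d) = (K * D.m - x) + (D.d - D.m) := by ring
      rw [e]
      omega
    · have h5 := D.uz_nonneg h4
      have hK1 : 0 ≤ K - 1 := by
        by_contra hc
        have : (K - 1) * D.m < 0 := mul_neg_of_neg_of_pos (by omega) hm
        omega
      exact ⟨K - 1, 0, le_refl _, hK1, by linear_combination hxy, by simpa using ht,
        by simpa using h4⟩
  · rintro ⟨K, hxy, ht, ht', hu, hu'⟩
    have hx0 := tz_nonneg ht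
    have hu0 := D.uz_nonneg hu
    have hd0 : D.d ≠ 0 := by omega
    have hK0 : 0 ≤ K := by
      by_contra hc
      have : K * D.m < 0 := mul_neg_of_neg_of_pos (by omega) hm
      omega
    refine ⟨⟨K, 0, le_refl _, hK0, hxy, by simpa using ht, by simpa using hu⟩, ?_, ?_⟩
    · rintro ⟨K', i', hi', hiK', hxy', ht'', hu''⟩
      exact ht' (D.tz_add_d hi' ht'')
    · rintro ⟨K', i', hi', hiK', hxy', ht'', hu''⟩
      have hKK : K' = K - 1 := by
        have : (K' - (K - 1)) * D.d = 0 := by linear_combination hxy - hxy'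
        rcases mul_eq_zero.1 this with h | h
        · omega
        · exact absurd h hd0
      subst hKK
      by_cases hi0 : i' = 0
      · subst hi0
        rw [zero_mul, sub_zero, sub_zero] at hu''
        exact hu' hu''
      · apply ht'
        apply D.tz_add_d (i := i' - 1) (by omega)
        have e : x - D.d - (i' - 1) * D.d = x - i' * D.d := by ring
        rwa [e]

/-- non-maximal elements of the Apéry set are not in the socle -/
lemma exists_gen_of_not_pf {x y : ℤ} (h : D.Ap x y) (hp : ¬ PF T (x - D.d)) :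
    ∃ a, D.gen a ∧ 0 < a ∧ D.Ap (x + a) (y + (D.d - a)) := by
  obtain ⟨b1, b2, b3, b4, b5, b6⟩ := D.bounds
  obtain ⟨K, hxy, ht, ht', hu, hu'⟩ := D.ap_iff.1 h
  have e1 : D.c + (K - 4) * D.m - (x - D.d) = K * D.m - x := by
    rw [b6]; ring
  have e2 : D.c + (K - 4 - 1) * D.m - (x - D.d) = (K - 1) * D.m - x := by
    rw [b6]; ring
  obtain ⟨a, h1, h2, h3, h4, h5, h6⟩ := D.exists_step (x - D.d) ht' hp (K - 4)
    (by rwa [e1]) (by rwa [e2])
  refine ⟨a, ⟨h1, h4⟩, h2, D.ap_iff.2 ⟨K + 1, by linear_combination hxy, tz_add ht h1, ?_, ?_, ?_⟩⟩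
  · have e : x + a - D.d = x - D.d + a := by ring
    rwa [e]
  · have := D.uz_add hu h4
    have e : K * D.m - x + (D.m - a) = (K + 1) * D.m - (x + a) := by ring
    rwa [e] at this
  · have e : (K + 1 - 1) * D.m - (x + a) = D.c + (K - 4) * D.m - (x - D.d) - a := by
      rw [e1]; ring
    rwa [e]

lemma not_ap_of_pf {x a : ℤ} (hp : PF T (x - D.d)) (ha : tz T a) (ha0 : a ≠ 0) (y : ℤ) :
    ¬ D.Ap (x + a) y := by
  intro h
  obtain ⟨K, hxy, ht, ht', hu, hu'⟩ := D.ap_iff.1 h
  apply ht'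
  have := hp.2 a ha ha0
  have e : x - D.d + a = x + a - D.d := by ring
  rwa [e] at this

lemma ap_of_pf {f : ℤ} (hf : PF T f) : D.Ap (D.d + f) (4 * D.d - f) := by
  obtain ⟨b1, b2, b3, b4, b5, b6⟩ := D.bounds
  have h1 := D.f_le _ hf
  have h2 := D.le_F hf
  refine D.ap_iff.2 ⟨5, by ring, D.gt _ (by omega), ?_, ?_, ?_⟩
  · rw [add_sub_cancel_left]
    exact hf.1
  · apply D.uz_large
    omega
  · have e : (5 - 1) * D.m - (D.d + f) = D.c - f := by rw [b6]; ring
    rw [e]
    exact D.not_uz_pf hf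

lemma eq_of_ap {f y : ℤ} (hf : PF T f) (h : D.Ap (D.d + f) y) : y = 4 * D.d - f := by
  obtain ⟨b1, b2, b3, b4, b5, b6⟩ := D.bounds
  have h1 := D.f_le _ hf
  have h2 := D.le_F hf
  have hm := D.m_pos
  obtain ⟨K, hxy, ht, ht', hu, hu'⟩ := D.ap_iff.1 h
  have h3 := D.uz_nonneg hu
  have hK5 : K = 5 := by
    rcases lt_trichotomy K 5 with h5 | h5 | h5
    · exfalso
      by_cases h6 : K = 4
      · subst h6
        have e : 4 * D.m - (D.d + f) = D.c - f := by rw [b6]; ring
        rw [e] at hu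
        exact D.not_uz_pf hf hu
      · have h7 : K * D.m ≤ 3 * D.m := mul_le_mul_of_nonneg_right (by omega) hm.le
        omega
    · exact h5
    · exfalso
      apply hu'
      apply D.uz_large
      have h7 : 5 * D.m ≤ (K - 1) * D.m := mul_le_mul_of_nonneg_right (by omega) hm.le
      omega
  subst hK5
  linear_combination hxy

end Data

end Pool.Agent.Lib.MP_4f2529_ag
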