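import Mathlib

/-!
# `Ext` of the residue field into a ring, by a regular sequence of length two
-/

universe u

open CategoryTheory Abelian Pointwise

namespace Pool.Agent.Lib.MP_4f2529_ag

noncomputable section

variable {A : Type u} [CommRing A]

lemma ext_shift (N M : ModuleCat.{u} A) (x : A) (hx : x ∈ Module.annihilator A N)
    (reg : IsSMulRegular M x) (i : ℕ) (h : Subsingleton (Ext N M i)) :
    Nonempty (Ext N (ModuleCat.of A (QuotSMulTop x M)) i ≃ₗ[A] Ext N M (i + 1)) := by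
  have hS := reg.smulShortComplex_shortExact
  let φ : Ext N (M.smulShortComplex x).X₃ i →ₗ[A] Ext N (M.smulShortComplex x).X₁ (i + 1) :=
    hS.extClass.postcompOfLinear A N rfl
  have hφ : Function.Bijective φ := by
    constructor
    · rw [injective_iff_map_eq_zero]
      intro x₃ hx₃
      obtain ⟨x₂, hx₂⟩ := Ext.covariant_sequence_exact₃ N hS x₃ rfl hx₃
      have : x₂ = 0 := Subsingleton.elim (α := Ext N M i) _ _
      rw [← hx₂, this]
      simp
    · intro x₁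
      have h0 : x₁.comp (Ext.mk₀ (M.smulShortComplex x).f) (add_zero (i + 1)) = 0 := by
        have := Ext.postcomp_smul_id_eq_zero_of_mem_annihilator (M := M) hx (i + 1)
        have h2 := congrArg (fun f => f.hom x₁) this
        exact h2
      obtain ⟨x₃, hx₃⟩ := Ext.covariant_sequence_exact₁ N hS x₁ h0 rfl
      exact ⟨x₃, hx₃⟩
  exact ⟨LinearEquiv.ofBijective φ hφ⟩

lemma hom_subsingleton (N M : ModuleCat.{u} A) (x : A) (hx : x ∈ Module.annihilator A N)
    (reg : IsSMulRegular M x) : Subsingleton (Ext N M 0) := by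
  have : Subsingleton (N →ₗ[A] M) := by
    refine ⟨fun f g => ?_⟩
    ext n
    apply reg
    change x • f n = x • g n
    rw [← map_smul, ← map_smul, Module.mem_annihilator.1 hx n, map_zero, map_zero]
  exact (Ext.addEquiv₀.trans ModuleCat.homAddEquiv).subsingleton

/-- The length of `Ext²(A/𝔪, A)`. -/
theorem length_ext (𝔪 : Ideal A) (x y : A) (hx : x ∈ 𝔪) (hy : y ∈ 𝔪) (rx : IsSMulRegular A x)
    (ry : IsSMulRegular (QuotSMulTop x A) y) :
    Module.length A (Ext (ModuleCat.of.{u} A (A ⧸ 𝔪)) (ModuleCat.of.{u} A A) 2) =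
      Module.length A ((A ⧸ 𝔪) →ₗ[A] QuotSMulTop y (QuotSMulTop x A)) := by
  have hann : ∀ z ∈ 𝔪, z ∈ Module.annihilator A (ModuleCat.of.{u} A (A ⧸ 𝔪)) := by
    intro z hz
    change z ∈ Module.annihilator A (A ⧸ 𝔪)
    rwa [Ideal.annihilator_quotient]
  have h00 : Subsingleton (Ext (ModuleCat.of.{u} A (A ⧸ 𝔪)) (ModuleCat.of.{u} A A) 0) :=
    hom_subsingleton _ _ x (hann x hx) rx
  have h01 : Subsingleton (Ext (ModuleCat.of.{u} A (A ⧸ 𝔪))
      (ModuleCat.of.{u} A (QuotSMulTop x A)) 0) :=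
    hom_subsingleton _ _ y (hann y hy) ry
  obtain ⟨e0⟩ := ext_shift (ModuleCat.of.{u} A (A ⧸ 𝔪)) (ModuleCat.of.{u} A A) x (hann x hx) rx 0
    h00
  have h10 : Subsingleton (Ext (ModuleCat.of.{u} A (A ⧸ 𝔪)) (ModuleCat.of.{u} A A) 1) :=
    e0.symm.toEquiv.subsingleton
  obtain ⟨e1⟩ := ext_shift (ModuleCat.of.{u} A (A ⧸ 𝔪)) (ModuleCat.of.{u} A A) x (hann x hx) rx 1
    h10
  obtain ⟨e2⟩ := ext_shift (ModuleCat.of.{u} A (A ⧸ 𝔪)) (ModuleCat.of.{u} A (QuotSMulTop x A)) y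
    (hann y hy) ry 0 h01
  let e3 : Ext (ModuleCat.of.{u} A (A ⧸ 𝔪))
      (ModuleCat.of.{u} A (QuotSMulTop y (ModuleCat.of.{u} A (QuotSMulTop x A)))) 0 ≃ₗ[A] _ :=
    Ext.linearEquiv₀ (R := A)
  let e4 : (ModuleCat.of.{u} A (A ⧸ 𝔪) ⟶
      ModuleCat.of.{u} A (QuotSMulTop y (ModuleCat.of.{u} A (QuotSMulTop x A)))) ≃ₗ[A]
      ((A ⧸ 𝔪) →ₗ[A] QuotSMulTop y (QuotSMulTop x A)) :=
    ModuleCat.homLinearEquiv
  exact ((((e4.symm.trans e3.symm).trans e2).trans e1).length_eq).symm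

end

end Pool.Agent.Lib.MP_4f2529_ag
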