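import Mathlib

/-!
# The length of `Hom(A/𝔪, Q)`
-/

universe u

namespace Pool.Agent.Lib.MP_4f2529_ag

noncomputable section

variable {A : Type u} [CommRing A] {Q : Type u} [AddCommGroup Q] [Module A Q]

/-- the map `A/𝔪 → Q`, `1 ↦ b` -/
def quotMap (𝔪 : Ideal A) (b : Q) (hb : ∀ r ∈ 𝔪, r • b = 0) : (A ⧸ 𝔪) →ₗ[A] Q :=
  Submodule.liftQ 𝔪 (LinearMap.toSpanSingleton A Q b) (fun r hr => hb r hr)

lemma quotMap_mk (𝔪 : Ideal A) (b : Q) (hb : ∀ r ∈ 𝔪, r • b = 0) (a : A) :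
    quotMap 𝔪 b hb (Ideal.Quotient.mk 𝔪 a) = a • b := rfl

theorem length_hom (𝔪 : Ideal A) [𝔪.IsMaximal] {σ : Type} [Fintype σ] (b : σ → Q)
    (h1 : ∀ s, ∀ r ∈ 𝔪, r • b s = 0) (h2 : ∀ c : σ → A, ∑ s, c s • b s = 0 → ∀ s, c s ∈ 𝔪)
    (h3 : ∀ z : Q, (∀ r ∈ 𝔪, r • z = 0) → ∃ c : σ → A, z = ∑ s, c s • b s) :
    Module.length A ((A ⧸ 𝔪) →ₗ[A] Q) = Fintype.card σ := by
  let ev : ((A ⧸ 𝔪) →ₗ[A] Q) →ₗ[A] Q := LinearMap.applyₗ' A (1 : A ⧸ 𝔪)
  have hev : ∀ f, ev f = f 1 := fun f => rfl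
  have hev_inj : Function.Injective ev := by
    intro f g hfg
    ext
    exact hfg
  let Ψ : (σ → A ⧸ 𝔪) →ₗ[A] Q := ∑ s, (quotMap 𝔪 (b s) (h1 s)).comp (LinearMap.proj s)
  have hΨ : ∀ c : σ → A, Ψ (fun s => Ideal.Quotient.mk 𝔪 (c s)) = ∑ s, c s • b s := by
    intro c
    simp only [Ψ, LinearMap.sum_apply, LinearMap.comp_apply, LinearMap.proj_apply]
    apply Finset.sum_congr rfl
    intro s _
    exact quotMap_mk 𝔪 (b s) (h1 s) (c s)
  have hlift : ∀ w : σ → A ⧸ 𝔪, ∃ c : σ → A, w = fun s => Ideal.Quotient.mk 𝔪 (c s) := by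
    intro w
    choose c hc using fun s => Ideal.Quotient.mk_surjective (w s)
    exact ⟨c, funext fun s => (hc s).symm⟩
  have hΨ_inj : Function.Injective Ψ := by
    rw [injective_iff_map_eq_zero]
    intro w hw
    obtain ⟨c, rfl⟩ := hlift w
    rw [hΨ] at hw
    funext s
    exact Ideal.Quotient.eq_zero_iff_mem.2 (h2 c hw s)
  have hrange : LinearMap.range ev = LinearMap.range Ψ := by
    apply le_antisymm
    · rintro _ ⟨f, rfl⟩
      obtain ⟨c, hc⟩ := h3 (ev f) (by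
        intro r hr
        rw [hev, ← map_smul]
        have : r • (1 : A ⧸ 𝔪) = 0 := by
          rw [← Ideal.Quotient.eq_zero_iff_mem] at hr
          rw [Algebra.smul_def, mul_one]
          exact hr
        rw [this, map_zero])
      exact ⟨_, (hΨ c).trans hc.symm⟩
    · rintro _ ⟨w, rfl⟩
      obtain ⟨c, rfl⟩ := hlift w
      refine ⟨quotMap 𝔪 (Ψ fun s => Ideal.Quotient.mk 𝔪 (c s)) ?_, ?_⟩
      · intro r hr
        rw [hΨ, Finset.smul_sum]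
        apply Finset.sum_eq_zero
        intro s _
        rw [smul_comm, h1 s r hr, smul_zero]
      · rw [hev]
        change quotMap 𝔪 _ _ (Ideal.Quotient.mk 𝔪 1) = _
        rw [quotMap_mk, one_smul]
  let e : ((A ⧸ 𝔪) →ₗ[A] Q) ≃ₗ[A] (σ → A ⧸ 𝔪) :=
    ((LinearEquiv.ofInjective ev hev_inj).trans (LinearEquiv.ofEq _ _ hrange)).trans
      (LinearEquiv.ofInjective Ψ hΨ_inj).symm
  have hsimple : IsSimpleModule A (A ⧸ 𝔪) := by
    rw [isSimpleModule_iff_isCoatom]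
    exact Ideal.isMaximal_def.1 inferInstance
  rw [e.length_eq, Module.length_pi_of_fintype]
  simp [Module.length_eq_one]

end

end Pool.Agent.Lib.MP_4f2529_ag
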