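import Mathlib
import Pool.Agent.Lib.MP_4f2529_ag.SocleAbs
import Pool.Agent.Lib.MP_4f2529_ag.ExtLen
import Pool.Agent.Lib.MP_4f2529_ag.CMring

/-!
# The type of a monomial subalgebra
-/

universe u

open MvPolynomial Pointwise

namespace Pool.Agent.Lib.MP_4f2529_ag

noncomputable section

section abs

variable {A : Type u} [CommRing A]

/-- the projection to the quotient by two elements -/
def pi2 (x y : A) : A →ₗ[A] QuotSMulTop y (QuotSMulTop x A) :=
  (Submodule.mkQ _).comp (Submodule.mkQ _)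

lemma pi2_surjective (x y : A) : Function.Surjective (pi2 x y) :=
  (Submodule.mkQ_surjective _).comp (Submodule.mkQ_surjective _)

lemma pi2_eq_zero_iff (x y g : A) : pi2 x y g = 0 ↔ ∃ a b, g = x * a + y * b := by
  constructor
  · intro h
    have h1 : (Submodule.mkQ (x • (⊤ : Submodule A A)) g : QuotSMulTop x A) ∈
        (y • (⊤ : Submodule A (QuotSMulTop x A))) := by
      rw [← Submodule.Quotient.mk_eq_zero]
      exact h
    rw [Submodule.mem_smul_pointwise_iff_exists] at h1
    obtain ⟨c, -, hc⟩ := h1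
    obtain ⟨b, rfl⟩ := Submodule.mkQ_surjective _ c
    have h2 : g - y * b ∈ (x • (⊤ : Submodule A A)) := by
      rw [← Submodule.Quotient.eq]
      exact hc.symm
    rw [Submodule.mem_smul_pointwise_iff_exists] at h2
    obtain ⟨a, -, ha⟩ := h2
    refine ⟨a, b, ?_⟩
    rw [← smul_eq_mul x a, ha]
    ring
  · rintro ⟨a, b, rfl⟩
    rw [map_add]
    have h1 : pi2 x y (x * a) = 0 := by
      change (Submodule.mkQ _) (Submodule.mkQ _ (x * a)) = 0
      have : (Submodule.mkQ (x • (⊤ : Submodule A A)) (x * a)) = 0 := by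
        rw [Submodule.mkQ_apply, Submodule.Quotient.mk_eq_zero,
          Submodule.mem_smul_pointwise_iff_exists]
        exact ⟨a, trivial, rfl⟩
      rw [this, map_zero]
    have h2 : pi2 x y (y * b) = 0 := by
      have e : y * b = y • b := rfl
      rw [e, map_smul]
      change y • (Submodule.mkQ _) (Submodule.mkQ _ b) = 0
      rw [← map_smul, Submodule.mkQ_apply, Submodule.Quotient.mk_eq_zero,
        Submodule.mem_smul_pointwise_iff_exists]
      exact ⟨_, trivial, rfl⟩
    rw [h1, h2, add_zero]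

end abs

variable {k : Type u} [Field k]

/-- divisible by `v ^ d` or `u ^ d` in the semigroup -/
def inJ (S : AddSubmonoid (Fin 2 →₀ ℕ)) (d : ℕ) (s : Fin 2 →₀ ℕ) : Prop :=
  (∃ s' ∈ S, s = e0 d + s') ∨ ∃ s' ∈ S, s = en d + s'

variable {S : AddSubmonoid (Fin 2 →₀ ℕ)} {d : ℕ}

lemma inJ_add {s r : Fin 2 →₀ ℕ} (h : inJ S d s) (hr : r ∈ S) : inJ S d (s + r) := by
  rcases h with ⟨s', hs', rfl⟩ | ⟨s', hs', rfl⟩
  · exact Or.inl ⟨s' + r, S.add_mem hs' hr, by rw [add_assoc]⟩
  · exact Or.inr ⟨s' + r, S.add_mem hs' hr, by rw [add_assoc]⟩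

lemma supp_monomial_mul (t : Fin 2 →₀ ℕ) (p : MvPolynomial (Fin 2) k) {s : Fin 2 →₀ ℕ}
    (hs : s ∈ (monomial t 1 * p).support) : ∃ s' ∈ p.support, s = t + s' := by
  classical
  have h1 := support_mul _ _ hs
  rw [Finset.mem_add] at h1
  obtain ⟨t', ht', s', hs', rfl⟩ := h1
  have := support_monomial_subset ht'
  rw [Finset.mem_singleton] at this
  exact ⟨s', hs', by rw [this]⟩

lemma mem_supp_monomial_mul (t : Fin 2 →₀ ℕ) (p : MvPolynomial (Fin 2) k) {s : Fin 2 →₀ ℕ}
    (hs : s ∈ p.support) : t + s ∈ (monomial t 1 * p).support := by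
  rw [mem_support_iff, coeff_monomial_mul, one_mul]
  exact mem_support_iff.1 hs

section ring

variable {A : Type u} [CommRing A] [Algebra k A] (ι : A →ₐ[k] MvPolynomial (Fin 2) k)
  (hι : Function.Injective ι) (hA : ∀ f, (∃ a, ι a = f) ↔ ∀ s ∈ f.support, s ∈ S)
  (x y : A) (hx : ι x = X 1 ^ d) (hy : ι y = X 0 ^ d) (I : Ideal A)
  (hI : ∀ a, a ∈ I ↔ coeff 0 (ι a) = 0)

include hA in
lemma exists_mon (s : Fin 2 →₀ ℕ) (hs : s ∈ S) : ∃ a : A, ι a = monomial s 1 := by
  rw [hA]
  intro s' hs'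
  have := support_monomial_subset hs'
  rw [Finset.mem_singleton] at this
  rw [this]
  exact hs

include hI in
lemma isMaximal_I : I.IsMaximal := by
  have h : I = RingHom.ker ((constantCoeff (R := k) (σ := Fin 2)).comp (ι : A →+* _)) := by
    ext a
    exact hI a
  rw [h]
  apply RingHom.ker_isMaximal_of_surjective
  intro c
  refine ⟨algebraMap k A c, ?_⟩
  change constantCoeff (ι (algebraMap k A c)) = c
  rw [ι.commutes]
  exact constantCoeff_C (Fin 2) c

include hι hA hx hy in
lemma pi2_zero_iff (g : A) : pi2 x y g = 0 ↔ ∀ s ∈ (ι g).support, inJ S d s := by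
  classical
  constructor
  · rw [pi2_eq_zero_iff]
    rintro ⟨a, b, rfl⟩ s hs
    rw [map_add, map_mul, map_mul, hx, hy, X_pow_eq_monomial, X_pow_eq_monomial] at hs
    rcases Finset.mem_union.1 (support_add hs) with h | h
    · left
      obtain ⟨s', hs', hss⟩ := supp_monomial_mul _ _ h
      exact ⟨s', (hA _).1 ⟨a, rfl⟩ _ hs', hss⟩
    · right
      obtain ⟨s', hs', hss⟩ := supp_monomial_mul _ _ h
      exact ⟨s', (hA _).1 ⟨b, rfl⟩ _ hs', hss⟩
  · intro h
    let B : Submodule k (MvPolynomial (Fin 2) k) :=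
      { carrier := {f | ∃ a, ι a = f ∧ pi2 x y a = 0}
        zero_mem' := ⟨0, map_zero _, map_zero _⟩
        add_mem' := by
          rintro _ _ ⟨a, rfl, ha⟩ ⟨b, rfl, hb⟩
          exact ⟨a + b, map_add _ _ _, by rw [map_add, ha, hb, add_zero]⟩
        smul_mem' := by
          rintro c _ ⟨a, rfl, ha⟩
          refine ⟨algebraMap k A c * a, ?_, ?_⟩
          · rw [map_mul, ι.commutes, Algebra.smul_def]
          · rw [← smul_eq_mul, map_smul, ha, smul_zero] }
    have hB : ι g ∈ B := by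
      rw [(ι g).as_sum]
      apply B.sum_mem
      intro s hs
      have e : monomial s (coeff s (ι g)) = coeff s (ι g) • (monomial s (1 : k)) := by
        rw [smul_monomial, smul_eq_mul, mul_one]
      rw [e]
      apply B.smul_mem
      rcases h s hs with ⟨s', hs', rfl⟩ | ⟨s', hs', rfl⟩
      · obtain ⟨z, hz⟩ := exists_mon ι hA s' hs'
        refine ⟨x * z, ?_, ?_⟩
        · rw [map_mul, hx, hz, X_pow_eq_monomial, monomial_mul, one_mul]
          rfl
        · rw [pi2_eq_zero_iff]
          exact ⟨z, 0, by ring⟩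
      · obtain ⟨z, hz⟩ := exists_mon ι hA s' hs'
        refine ⟨y * z, ?_, ?_⟩
        · rw [map_mul, hy, hz, X_pow_eq_monomial, monomial_mul, one_mul]
          rfl
        · rw [pi2_eq_zero_iff]
          exact ⟨0, z, by ring⟩
    obtain ⟨g', hgg, hg'⟩ := hB
    rw [← hι hgg]
    exact hg'

include hι hA hx hy hI in
/-- The length of the socle. -/
theorem length_socle (σ : Finset (Fin 2 →₀ ℕ)) (hσ : ∀ s, s ∈ σ ↔ s ∈ S ∧ ¬ inJ S d s ∧
    ∀ r ∈ S, r ≠ 0 → inJ S d (s + r)) :
    Module.length A ((A ⧸ I) →ₗ[A] QuotSMulTop y (QuotSMulTop x A)) = σ.card := by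
  classical
  have hmax : I.IsMaximal := isMaximal_I ι I hI
  have hS : ∀ s : σ, ∃ a : A, ι a = monomial s.1 1 := fun s =>
    exists_mon ι hA s.1 ((hσ s.1).1 s.2).1
  choose mon hmon using hS
  rw [length_hom (σ := σ) I (fun s => pi2 x y (mon s))]
  · rw [Fintype.card_coe]
  · intro s r hr
    rw [← map_smul, pi2_zero_iff ι hι hA x y hx hy]
    intro t ht
    rw [smul_eq_mul, map_mul, hmon, mul_comm] at ht
    obtain ⟨r', hr', rfl⟩ := supp_monomial_mul _ _ ht
    apply ((hσ s.1).1 s.2).2.2 r' ((hA _).1 ⟨r, rfl⟩ _ hr')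
    rintro rfl
    exact (mem_support_iff.1 hr') ((hI _).1 hr)
  · intro c hc s₀
    have h1 : pi2 x y (∑ s : σ, c s * mon s) = 0 := by
      rw [map_sum, ← hc]
      apply Finset.sum_congr rfl
      intro s _
      rw [← smul_eq_mul, map_smul]
    rw [pi2_zero_iff ι hι hA x y hx hy] at h1
    rw [hI]
    by_contra hne
    have hS0 := (hσ s₀.1).1 s₀.2
    apply hS0.2.1
    apply h1
    rw [mem_support_iff, map_sum, coeff_sum, Finset.sum_eq_single s₀]
    · have h3 : coeff (s₀.1 + 0) (monomial s₀.1 1 * ι (c s₀)) = coeff 0 (ι (c s₀)) := by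
        rw [coeff_monomial_mul, one_mul]
      rw [add_zero] at h3
      rw [map_mul, hmon, mul_comm, h3]
      exact hne
    · intro s _ hs
      by_contra h3
      rw [map_mul, hmon, mul_comm] at h3
      obtain ⟨r, hr, hsr⟩ := supp_monomial_mul _ _ (mem_support_iff.2 h3)
      apply hS0.2.1
      rw [hsr]
      apply ((hσ s.1).1 s.2).2.2 r ((hA _).1 ⟨c s, rfl⟩ _ hr)
      rintro rfl
      rw [add_zero] at hsr
      exact hs (Subtype.ext hsr.symm)
    · intro h3
      exact absurd (Finset.mem_univ _) h3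
  · intro z hz
    obtain ⟨g, rfl⟩ := pi2_surjective x y z
    refine ⟨fun s => algebraMap k A (coeff s.1 (ι g)), ?_⟩
    rw [← sub_eq_zero]
    have e1 : pi2 x y g - ∑ s : σ, algebraMap k A (coeff s.1 (ι g)) • pi2 x y (mon s) =
        pi2 x y (g - ∑ s : σ, algebraMap k A (coeff s.1 (ι g)) * mon s) := by
      rw [map_sub, map_sum]
      congr 1
    rw [e1, pi2_zero_iff ι hι hA x y hx hy]
    intro s hs
    have e2 : ι (g - ∑ s : σ, algebraMap k A (coeff s.1 (ι g)) * mon s) =
        ι g - ∑ s : σ, monomial s.1 (coeff s.1 (ι g)) := by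
      rw [map_sub, map_sum]
      congr 1
      apply Finset.sum_congr rfl
      intro s _
      rw [map_mul, ι.commutes, hmon]
      change C (coeff s.1 (ι g)) * monomial s.1 1 = _
      rw [C_mul_monomial, mul_one]
    rw [e2, mem_support_iff, coeff_sub, coeff_sum] at hs
    by_cases hsσ : s ∈ σ
    · exfalso
      apply hs
      rw [Finset.sum_eq_single ⟨s, hsσ⟩]
      · rw [coeff_monomial, if_pos rfl, sub_self]
      · intro s' _ hs'
        rw [coeff_monomial, if_neg]
        intro h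
        exact hs' (Subtype.ext h)
      · intro h
        exact absurd (Finset.mem_univ _) h
    · have h3 : coeff s (ι g) ≠ 0 := by
        rw [Finset.sum_eq_zero, sub_zero] at hs
        · exact hs
        · intro s' _
          rw [coeff_monomial, if_neg]
          rintro rfl
          exact hsσ s'.2
      have hsS : s ∈ S := (hA _).1 ⟨g, rfl⟩ _ (mem_support_iff.2 h3)
      by_contra hnJ
      apply hsσ
      rw [hσ]
      refine ⟨hsS, hnJ, fun r hr hr0 => ?_⟩
      obtain ⟨w, hw⟩ := exists_mon ι hA r hr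
      have h4 := hz w (by
        rw [hI, hw, coeff_monomial, if_neg hr0])
      rw [← map_smul, pi2_zero_iff ι hι hA x y hx hy] at h4
      have h5 := h4 (r + s) (by
        rw [smul_eq_mul, map_mul, hw]
        exact mem_supp_monomial_mul r _ (mem_support_iff.2 h3))
      rwa [add_comm] at h5

include hι hA hx hy hI in
/-- The type of `A`. -/
theorem type_eq (hd : 0 < d) (h0 : e0 d ∈ S) (hn : en d ∈ S)
    (hCM : ∀ s, s + e0 d ∈ S → s + en d ∈ S → s ∈ S)
    (σ : Finset (Fin 2 →₀ ℕ)) (hσ : ∀ s, s ∈ σ ↔ s ∈ S ∧ ¬ inJ S d s ∧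
    ∀ r ∈ S, r ≠ 0 → inJ S d (s + r)) : extLength A I 2 = σ.card := by
  have hX1 : (X 1 ^ d : MvPolynomial (Fin 2) k) ≠ 0 := pow_ne_zero _ (X_ne_zero _)
  have hX0 : (X 0 ^ d : MvPolynomial (Fin 2) k) ≠ 0 := pow_ne_zero _ (X_ne_zero _)
  have hAr : ∀ f, f ∈ ι.range ↔ ∀ s ∈ f.support, s ∈ S := fun f => hA f
  rw [extLength, length_ext I x y, length_socle ι hι hA x y hx hy I hI σ hσ]
  · rw [hI, hx, X_pow_eq_monomial, coeff_monomial, if_neg]
    intro h
    have := congrArg (fun f => f 1) h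
    simp at this
    omega
  · rw [hI, hy, X_pow_eq_monomial, coeff_monomial, if_neg]
    intro h
    have := congrArg (fun f => f 0) h
    simp at this
    omega
  · intro a b hab
    apply hι
    have h1 := congrArg ι hab
    simp only [smul_eq_mul, map_mul, hx] at h1
    exact mul_left_cancel₀ hX1 h1
  · apply regular_quot
    intro g h e
    have h1 := congrArg ι e
    rw [map_mul, map_mul, hx, hy] at h1
    have hs1 : ∀ s ∈ (X 1 ^ d : MvPolynomial (Fin 2) k).support, ∃ j : ℕ, s = j • e0 d := by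
      intro s hs
      rw [X_pow_eq_monomial] at hs
      have := support_monomial_subset hs
      rw [Finset.mem_singleton] at this
      exact ⟨1, by rw [this, one_smul]; rfl⟩
    have hs0 : ∀ s ∈ (X 0 ^ d : MvPolynomial (Fin 2) k).support, ∃ j : ℕ, s = j • en d := by
      intro s hs
      rw [X_pow_eq_monomial] at hs
      have := support_monomial_subset hs
      rw [Finset.mem_singleton] at this
      exact ⟨1, by rw [this, one_smul]; rfl⟩
    obtain ⟨f, ⟨f', rfl⟩, hf⟩ := weakly_regular_pair (A := ι.range) h0 hn hCM hX1 hX0 hs1 hs0 hAr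
      (ι g) (ι h) ⟨g, rfl⟩ ⟨h, rfl⟩ h1
    refine ⟨f', ?_⟩
    apply hι
    rw [map_mul, hx]
    exact hf

end ring

end

end Pool.Agent.Lib.MP_4f2529_ag
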