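import Mathlib
import Pool.Agent.Lib.MP_4f2529_ag.Comb2
import Pool.Agent.Lib.MP_4f2529_ag.Socle

/-!
# The concrete curve
-/

universe u

open MvPolynomial

namespace Pool.Agent.Lib.MP_4f2529_ag

noncomputable section

variable {T : AddSubmonoid ℕ} (D : Data T)

lemma exists_exp {x y : ℤ} (hx : 0 ≤ x) (hy : 0 ≤ y) :
    ∃ r : Fin 2 →₀ ℕ, (r 0 : ℤ) = x ∧ (r 1 : ℤ) = y := by
  refine ⟨Finsupp.single 0 x.toNat + Finsupp.single 1 y.toNat, ?_, ?_⟩
  · simp
    omega
  · simp
    omega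

lemma exp_ext {r r' : Fin 2 →₀ ℕ} (h0 : (r 0 : ℤ) = r' 0) (h1 : (r 1 : ℤ) = r' 1) : r = r' := by
  apply Finsupp.ext
  rw [Fin.forall_fin_two]
  exact ⟨by exact_mod_cast h0, by exact_mod_cast h1⟩

/-- the affine semigroup as a set of exponents -/
def SS : AddSubmonoid (Fin 2 →₀ ℕ) where
  carrier := {s | D.InS (s 0) (s 1)}
  zero_mem' := by simpa using D.inS_zero
  add_mem' := by
    intro a b ha hb
    have := D.inS_add ha hb
    simpa using this

lemma mem_SS {s : Fin 2 →₀ ℕ} : s ∈ SS D ↔ D.InS (s 0) (s 1) := Iff.rfl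

/-- the degree as a natural number -/
def dd : ℕ := D.d.toNat

lemma coe_dd : ((dd D : ℕ) : ℤ) = D.d := by
  have h1 := D.d_gt
  have h2 := D.m_pos
  obtain ⟨b1, b2, b3, b4, b5, b6⟩ := D.bounds
  exact Int.toNat_of_nonneg (by omega)

lemma dd_pos : 0 < dd D := by
  have h := coe_dd D
  have h1 := D.d_gt
  have h2 := D.m_pos
  obtain ⟨b1, b2, b3, b4, b5, b6⟩ := D.bounds
  omega

lemma e0_mem : e0 (dd D) ∈ SS D := by
  rw [mem_SS]
  have := D.inS_gen D.gen_zero
  rw [sub_zero, ← coe_dd D] at this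
  simpa [e0] using this

lemma en_mem : en (dd D) ∈ SS D := by
  rw [mem_SS]
  have := D.inS_d
  rw [← coe_dd D] at this
  simpa [en] using this

lemma cm_SS : ∀ s, s + e0 (dd D) ∈ SS D → s + en (dd D) ∈ SS D → s ∈ SS D := by
  intro s h1 h2
  rw [mem_SS] at *
  apply D.inS_cm
  · rw [← coe_dd D]
    simpa [e0] using h1
  · rw [← coe_dd D]
    simpa [en] using h2

lemma inJ_iff {s : Fin 2 →₀ ℕ} : inJ (SS D) (dd D) s ↔
    D.InS (s 0) ((s 1 : ℤ) - D.d) ∨ D.InS ((s 0 : ℤ) - D.d) (s 1) := by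
  rw [← coe_dd D]
  constructor
  · rintro (⟨s', hs', rfl⟩ | ⟨s', hs', rfl⟩)
    · left
      rw [mem_SS] at hs'
      simpa [e0] using hs'
    · right
      rw [mem_SS] at hs'
      simpa [en] using hs'
  · rintro (h | h)
    · left
      have h1 := (D.inS_nonneg h).2
      have h2 : dd D ≤ s 1 := by omega
      refine ⟨s - e0 (dd D), ?_, ?_⟩
      · rw [mem_SS]
        have e : (((s - e0 (dd D)) 1 : ℕ) : ℤ) = (s 1 : ℤ) - dd D := by
          simp [e0]
          omega
        rw [e]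
        simpa [e0] using h
      · ext i
        fin_cases i
        · simp [e0]
        · simp [e0]
          omega
    · right
      have h1 := (D.inS_nonneg h).1
      have h2 : dd D ≤ s 0 := by omega
      refine ⟨s - en (dd D), ?_, ?_⟩
      · rw [mem_SS]
        have e : (((s - en (dd D)) 0 : ℕ) : ℤ) = (s 0 : ℤ) - dd D := by
          simp [en]
          omega
        rw [e]
        simpa [en] using h
      · ext i
        fin_cases i
        · simp [en]
          omega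
        · simp [en]

lemma ap_iff' {s : Fin 2 →₀ ℕ} : D.Ap (s 0) (s 1) ↔ s ∈ SS D ∧ ¬ inJ (SS D) (dd D) s := by
  rw [inJ_iff, mem_SS, Data.Ap]
  tauto

lemma forall_inJ {s : Fin 2 →₀ ℕ} (hs : s ∈ SS D) (hp : PF T ((s 0 : ℤ) - D.d))
    (r : Fin 2 →₀ ℕ) (hr : r ∈ SS D) (hr0 : r ≠ 0) : inJ (SS D) (dd D) (s + r) := by
  -- the good elements form a submonoid
  let M : AddSubmonoid (ℤ × ℤ) :=
    { carrier := {p | ∃ r : Fin 2 →₀ ℕ, (r 0 : ℤ) = p.1 ∧ (r 1 : ℤ) = p.2 ∧ r ∈ SS D ∧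
        (r = 0 ∨ inJ (SS D) (dd D) (s + r))}
      zero_mem' := ⟨0, rfl, rfl, (SS D).zero_mem, Or.inl rfl⟩
      add_mem' := by
        rintro ⟨a, b⟩ ⟨a', b'⟩ ⟨r, h1, h2, h3, h4⟩ ⟨r', h1', h2', h3', h4'⟩
        refine ⟨r + r', ?_, ?_, (SS D).add_mem h3 h3', ?_⟩
        · simp only [Finsupp.add_apply, Nat.cast_add, h1, h1']
          rfl
        · simp only [Finsupp.add_apply, Nat.cast_add, h2, h2']
          rfl
        · rcases h4 with rfl | h4
          · rw [zero_add]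
            exact h4'
          · right
            rw [← add_assoc]
            exact inJ_add h4 h3' }
  have hM : ∀ a, D.gen a → (a, D.d - a) ∈ M := by
    intro a ha
    have ha0 := D.gen_nonneg ha
    have hae := D.gen_le ha
    have hd1 := D.d_gt
    obtain ⟨b1, b2, b3, b4, b5, b6⟩ := D.bounds
    obtain ⟨r, hr0', hr1'⟩ := exists_exp (x := a) (y := D.d - a) (by omega) (by omega)
    have hrS : r ∈ SS D := by
      rw [mem_SS, hr0', hr1']
      exact D.inS_gen ha
    refine ⟨r, hr0', hr1', hrS, Or.inr ?_⟩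
    by_cases ha' : a = 0
    · -- `r = e0`
      have : r = e0 (dd D) := by
        apply exp_ext
        · rw [hr0', ha']
          simp [e0]
        · rw [hr1', ha', sub_zero, ← coe_dd D]
          simp [e0]
      rw [this, add_comm]
      exact Or.inl ⟨s, hs, rfl⟩
    · by_contra hc
      have h3 : D.Ap ((s + r) 0 : ℕ) ((s + r) 1 : ℕ) :=
        (ap_iff' D).2 ⟨(SS D).add_mem hs hrS, hc⟩
      rw [Finsupp.add_apply, Finsupp.add_apply] at h3
      push_cast at h3
      rw [hr0'] at h3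
      exact D.not_ap_of_pf hp ha.1 ha' _ h3
  have hd : (D.d, (0 : ℤ)) ∈ M := by
    refine ⟨en (dd D), ?_, ?_, en_mem D, Or.inr ?_⟩
    · simp [en, coe_dd]
    · simp [en]
    · rw [add_comm]
      exact Or.inr ⟨s, hs, rfl⟩
  obtain ⟨r', h1, h2, h3, h4⟩ := D.inS_sub M hM hd hr
  have : r' = r := exp_ext h1 h2
  subst this
  rcases h4 with h4 | h4
  · exact absurd h4 hr0
  · exact h4

/-- the socle monomials -/
lemma socle_iff {s : Fin 2 →₀ ℕ} : (s ∈ SS D ∧ ¬ inJ (SS D) (dd D) s ∧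
    ∀ r ∈ SS D, r ≠ 0 → inJ (SS D) (dd D) (s + r)) ↔
    ∃ f, PF T f ∧ (s 0 : ℤ) = D.d + f ∧ (s 1 : ℤ) = 4 * D.d - f := by
  constructor
  · rintro ⟨h1, h2, h3⟩
    have hap := (ap_iff' D).2 ⟨h1, h2⟩
    have hpf : PF T ((s 0 : ℤ) - D.d) := by
      by_contra hc
      obtain ⟨a, ha, ha0, hap'⟩ := D.exists_gen_of_not_pf hap hc
      have hae := D.gen_le ha
      have hd1 := D.d_gt
      obtain ⟨b1, b2, b3, b4, b5, b6⟩ := D.bounds
      obtain ⟨r, hr0', hr1'⟩ := exists_exp (x := a) (y := D.d - a) (by omega) (by omega)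
      have hrS : r ∈ SS D := by
        rw [mem_SS, hr0', hr1']
        exact D.inS_gen ha
      have hr0 : r ≠ 0 := by
        intro h
        rw [h] at hr0'
        simp at hr0'
        omega
      have h4 := h3 r hrS hr0
      have h5 : D.Ap ((s + r) 0 : ℕ) ((s + r) 1 : ℕ) := by
        rw [Finsupp.add_apply, Finsupp.add_apply]
        push_cast
        rw [hr0', hr1']
        exact hap'
      exact ((ap_iff' D).1 h5).2 h4
    refine ⟨(s 0 : ℤ) - D.d, hpf, by ring, ?_⟩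
    apply D.eq_of_ap hpf
    have e : D.d + ((s 0 : ℤ) - D.d) = s 0 := by ring
    rw [e]
    exact hap
  · rintro ⟨f, hf, h1, h2⟩
    have hap : D.Ap (s 0) (s 1) := by
      rw [h1, h2]
      exact D.ap_of_pf hf
    have h3 := (ap_iff' D).1 hap
    refine ⟨h3.1, h3.2, forall_inJ D h3.1 ?_⟩
    rw [h1, add_sub_cancel_left]
    exact hf

end

end Pool.Agent.Lib.MP_4f2529_ag
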