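import Mathlib
import Pool.Agent.Lib.MP_4f2529_ag.Conc

/-!
# Realising numerical semigroups by arithmetically Cohen-Macaulay monomial curves of the same type
-/

universe u

open MvPolynomial

namespace Pool.Agent.Lib.MP_4f2529_ag

noncomputable section

lemma pf_iff {T : AddSubmonoid ℕ} {z : ℤ} : z ∈ pseudoFrobenius T ↔ PF T z := by
  constructor
  · rintro ⟨h1, h2⟩
    refine ⟨fun ⟨s, hs, hsz⟩ => h1 s hs hsz, ?_⟩
    rintro _ ⟨s, hs, rfl⟩ hs0
    exact h2 s hs (by exact_mod_cast hs0)
  · rintro ⟨h1, h2⟩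
    exact ⟨fun s hs hsz => h1 ⟨s, hs, hsz⟩, fun s hs hs0 => h2 s ⟨s, hs, rfl⟩ (by exact_mod_cast hs0)⟩

lemma not_one_mem {T : AddSubmonoid ℕ} (ht : 1 < (pseudoFrobenius T).ncard) : ¬ tz T 1 := by
  intro h1
  have hall : ∀ n : ℕ, tz T n := by
    intro n
    induction n with
    | zero => exact tz_zero
    | succ n ih =>
      have := tz_add ih h1
      exact_mod_cast this
  have hsub : pseudoFrobenius T ⊆ {-1} := by
    intro x hx
    rw [pf_iff] at hx
    have h2 := hx.2 1 h1 (by norm_num)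
    have h3 := tz_nonneg h2
    have h4 : x < 0 := by
      by_contra hc
      obtain ⟨n, rfl⟩ := Int.eq_ofNat_of_zero_le (not_lt.1 hc)
      exact hx.1 (hall n)
    rw [Set.mem_singleton_iff]
    omega
  have := Set.ncard_le_ncard hsub
  rw [Set.ncard_singleton] at this
  omega

variable {T : AddSubmonoid ℕ} (D : Data T)

open Classical in
/-- the generators -/
def GG : Finset ℕ := (Finset.range (dd D + 1)).filter fun a => D.gen a ∨ (a : ℤ) = D.d

lemma mem_GG {a : ℕ} : a ∈ GG D ↔ D.gen a ∨ (a : ℤ) = D.d := by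
  classical
  unfold GG
  rw [Finset.mem_filter, Finset.mem_range]
  refine ⟨fun h => h.2, fun h => ⟨?_, h⟩⟩
  have h1 := coe_dd D
  have h2 := D.d_gt
  have h3 := D.m_pos
  obtain ⟨b1, b2, b3, b4, b5, b6⟩ := D.bounds
  rcases h with h | h
  · have := D.gen_le h
    omega
  · omega

lemma zero_mem_GG : 0 ∈ GG D := by
  rw [mem_GG]
  exact Or.inl (by exact_mod_cast D.gen_zero)

lemma dd_mem_GG : dd D ∈ GG D := by
  rw [mem_GG]
  exact Or.inr (coe_dd D)

lemma le_of_mem_GG {a : ℕ} (h : a ∈ GG D) : a ≤ dd D := by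
  classical
  unfold GG at h
  rw [Finset.mem_filter, Finset.mem_range] at h
  omega

lemma exists_enum : ∃ (n : ℕ) (a : Fin (n + 1) → ℕ), StrictMono a ∧ a 0 = 0 ∧
    a (Fin.last n) = dd D ∧ Set.range a = GG D := by
  have hpos : 0 < (GG D).card := Finset.card_pos.2 ⟨0, zero_mem_GG D⟩
  obtain ⟨n, hn⟩ : ∃ n, (GG D).card = n + 1 := ⟨(GG D).card - 1, by omega⟩
  let a := (GG D).orderEmbOfFin hn
  have hr : Set.range a = GG D := Finset.range_orderEmbOfFin _ _
  have hmono : StrictMono a := a.strictMono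
  refine ⟨n, a, hmono, ?_, ?_, hr⟩
  · have h0 : (0 : ℕ) ∈ Set.range a := by
      rw [hr]
      exact zero_mem_GG D
    obtain ⟨i, hi⟩ := h0
    have := hmono.monotone (Fin.zero_le i)
    omega
  · have h0 : dd D ∈ Set.range a := by
      rw [hr]
      exact dd_mem_GG D
    obtain ⟨i, hi⟩ := h0
    have h1 := hmono.monotone (Fin.le_last i)
    have h2 : a (Fin.last n) ∈ GG D := by
      have : a (Fin.last n) ∈ Set.range a := ⟨_, rfl⟩
      rw [hr] at this
      exact this
    have h3 := le_of_mem_GG D h2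
    omega

lemma closure_GG : AddSubmonoid.closure ((GG D : Finset ℕ) : Set ℕ) = T := by
  apply le_antisymm
  · rw [AddSubmonoid.closure_le]
    intro a ha
    rcases (mem_GG D).1 ha with h | h
    · exact tz_natCast.1 h.1
    · have := D.tz_d
      rw [← h] at this
      exact tz_natCast.1 this
  · intro x hx
    obtain ⟨b1, b2, b3, b4, b5, b6⟩ := D.bounds
    have hm := D.m_pos
    let M : AddSubmonoid (ℤ × ℤ) :=
      { carrier := {p | ∃ x : ℕ, (x : ℤ) = p.1 ∧
          x ∈ AddSubmonoid.closure ((GG D : Finset ℕ) : Set ℕ)}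
        zero_mem' := ⟨0, rfl, AddSubmonoid.zero_mem _⟩
        add_mem' := by
          rintro ⟨a, b⟩ ⟨a', b'⟩ ⟨r, h1, h2⟩ ⟨r', h1', h2'⟩
          refine ⟨r + r', ?_, AddSubmonoid.add_mem _ h2 h2'⟩
          push_cast
          rw [h1, h1']
          rfl }
    have hM : ∀ a, D.gen a → (a, D.d - a) ∈ M := by
      intro a ha
      obtain ⟨n, rfl⟩ := Int.eq_ofNat_of_zero_le (D.gen_nonneg ha)
      exact ⟨n, rfl, AddSubmonoid.subset_closure ((mem_GG D).2 (Or.inl ha))⟩
    have h1 := D.gen_sub M hM (x + 2 * D.N.toNat) x (tz_natCast.2 hx) (D.uz_large (by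
      push_cast
      nlinarith [Int.toNat_of_nonneg (by omega : 0 ≤ D.N), Int.natCast_nonneg x]))
    obtain ⟨y, hy, hy'⟩ := h1
    have hyx : (y : ℤ) = (x : ℤ) := hy
    have : y = x := by exact_mod_cast hyx
    rwa [this] at hy'

/-- polynomials with monomials in a submonoid -/
def suppAlg (k : Type u) [Field k] (S : AddSubmonoid (Fin 2 →₀ ℕ)) :
    Subalgebra k (MvPolynomial (Fin 2) k) where
  carrier := {f | ∀ s ∈ f.support, s ∈ S}
  mul_mem' := by
    classical
    intro f g hf hg s hs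
    have h1 := support_mul _ _ hs
    rw [Finset.mem_add] at h1
    obtain ⟨t, ht, t', ht', rfl⟩ := h1
    exact S.add_mem (hf t ht) (hg t' ht')
  add_mem' := by
    classical
    intro f g hf hg s hs
    rcases Finset.mem_union.1 (support_add hs) with h | h
    · exact hf s h
    · exact hg s h
  algebraMap_mem' := by
    intro c s hs
    rw [algebraMap_eq, mem_support_iff, coeff_C] at hs
    by_cases h : 0 = s
    · rw [← h]
      exact S.zero_mem
    · rw [if_neg h] at hs
      exact absurd rfl hs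

section

variable (k : Type u) [Field k] {n : ℕ} {a : Fin (n + 1) → ℕ} (hlast : a (Fin.last n) = dd D)
  (hrange : Set.range a = GG D)

lemma gen_monomial (i j : ℕ) : (X 0 ^ i * X 1 ^ j : MvPolynomial (Fin 2) k) =
    monomial (Finsupp.single 0 i + Finsupp.single 1 j) 1 := by
  rw [X_pow_eq_monomial, X_pow_eq_monomial, monomial_mul, one_mul]

include hlast hrange in
lemma mem_coordRing (f : MvPolynomial (Fin 2) k) :
    f ∈ coordRing k a ↔ ∀ s ∈ f.support, s ∈ SS D := by
  have hd := coe_dd D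
  constructor
  · have h : coordRing k a ≤ suppAlg k (SS D) := by
      unfold coordRing
      rw [Algebra.adjoin_le_iff]
      rintro _ ⟨i, rfl⟩ s hs
      simp only [gen_monomial] at hs
      have := support_monomial_subset hs
      rw [Finset.mem_singleton] at this
      subst this
      have hi : a i ∈ GG D := by
        have : a i ∈ Set.range a := ⟨i, rfl⟩
        rw [hrange] at this
        exact this
      have hle := le_of_mem_GG D hi
      rw [mem_SS]
      have e0' : (((Finsupp.single 0 (a i) + Finsupp.single 1 (a (Fin.last n) - a i) :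
          Fin 2 →₀ ℕ) 0 : ℕ) : ℤ) = a i := by simp
      have e1' : (((Finsupp.single 0 (a i) + Finsupp.single 1 (a (Fin.last n) - a i) :
          Fin 2 →₀ ℕ) 1 : ℕ) : ℤ) = D.d - a i := by
        simp
        omega
      rw [e0', e1']
      rcases (mem_GG D).1 hi with h | h
      · exact D.inS_gen h
      · rw [h, sub_self]
        exact D.inS_d
    intro hf
    exact h hf
  · intro hf
    rw [f.as_sum]
    apply Subalgebra.sum_mem
    intro s hs
    have e : monomial s (coeff s f) = coeff s f • (monomial s (1 : k)) := by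
      rw [smul_monomial, smul_eq_mul, mul_one]
    rw [e]
    apply Subalgebra.smul_mem
    have hsS := hf s hs
    let M : AddSubmonoid (ℤ × ℤ) :=
      { carrier := {p | ∃ r : Fin 2 →₀ ℕ, (r 0 : ℤ) = p.1 ∧ (r 1 : ℤ) = p.2 ∧
          monomial r (1 : k) ∈ coordRing k a}
        zero_mem' := ⟨0, rfl, rfl, by
          have : (monomial 0 (1 : k) : MvPolynomial (Fin 2) k) = 1 := rfl
          rw [this]
          exact Subalgebra.one_mem _⟩
        add_mem' := by
          rintro ⟨a, b⟩ ⟨a', b'⟩ ⟨r, h1, h2, h3⟩ ⟨r', h1', h2', h3'⟩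
          refine ⟨r + r', ?_, ?_, ?_⟩
          · simp only [Finsupp.add_apply, Nat.cast_add, h1, h1']
            rfl
          · simp only [Finsupp.add_apply, Nat.cast_add, h2, h2']
            rfl
          · have := Subalgebra.mul_mem _ h3 h3'
            rwa [monomial_mul, one_mul] at this }
    have hgen : ∀ i : ℕ, i ∈ GG D → ((i : ℤ), D.d - i) ∈ M := by
      intro i hi
      have hle := le_of_mem_GG D hi
      have hi' : i ∈ Set.range a := by
        rw [hrange]
        exact hi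
      obtain ⟨j, rfl⟩ := hi'
      refine ⟨Finsupp.single 0 (a j) + Finsupp.single 1 (a (Fin.last n) - a j), ?_, ?_, ?_⟩
      · simp
      · simp
        omega
      · rw [← gen_monomial]
        exact Algebra.subset_adjoin ⟨j, rfl⟩
    have hM : ∀ a, D.gen a → (a, D.d - a) ∈ M := by
      intro b hb
      obtain ⟨i, rfl⟩ := Int.eq_ofNat_of_zero_le (D.gen_nonneg hb)
      exact hgen i ((mem_GG D).2 (Or.inl hb))
    have hdM : (D.d, (0 : ℤ)) ∈ M := by
      have := hgen _ (dd_mem_GG D)
      rwa [coe_dd, sub_self] at this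
    obtain ⟨r, h1, h2, h3⟩ := D.inS_sub M hM hdM hsS
    have : r = s := exp_ext h1 h2
    rwa [this] at h3

lemma gen_pow (g : MvPolynomial (Fin 2) k)
    (hg : g ∈ Set.range fun i => (X 0 ^ a i * X 1 ^ (a (Fin.last n) - a i) :
      MvPolynomial (Fin 2) k)) :
    g ^ dd D ∈ Algebra.adjoin k {(X 1 ^ dd D : MvPolynomial (Fin 2) k), X 0 ^ dd D} := by
  obtain ⟨i, rfl⟩ := hg
  have e : (X 0 ^ a i * X 1 ^ (a (Fin.last n) - a i) : MvPolynomial (Fin 2) k) ^ dd D =
      (X 0 ^ dd D) ^ a i * (X 1 ^ dd D) ^ (a (Fin.last n) - a i) := by ring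
  change (X 0 ^ a i * X 1 ^ (a (Fin.last n) - a i) : MvPolynomial (Fin 2) k) ^ dd D ∈ _
  rw [e]
  apply Subalgebra.mul_mem
  · apply Subalgebra.pow_mem
    exact Algebra.subset_adjoin (by simp)
  · apply Subalgebra.pow_mem
    exact Algebra.subset_adjoin (by simp)

include hlast hrange in
theorem coordRing_cm : IsCohenMacaulay (coordRing k a) :=
  isCohenMacaulay_of (dd_pos D) (e0_mem D) (en_mem D) (cm_SS D) (mem_coordRing D k hlast hrange)
    rfl (gen_pow D k) (Set.finite_range _)

open Classical in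
/-- pseudo-Frobenius numbers as a finite set -/
def PFfin : Finset ℤ := (Finset.Icc 1 D.F).filter fun f => PF T f

lemma mem_PFfin {f : ℤ} : f ∈ PFfin D ↔ PF T f := by
  classical
  unfold PFfin
  rw [Finset.mem_filter, Finset.mem_Icc]
  refine ⟨fun h => h.2, fun h => ⟨⟨?_, D.le_F h⟩, h⟩⟩
  have := D.f_pos
  have := D.f_le _ h
  omega

/-- socle monomials as a finite set -/
def sigma : Finset (Fin 2 →₀ ℕ) := (PFfin D).image fun f =>
  Finsupp.single 0 (D.d + f).toNat + Finsupp.single 1 (4 * D.d - f).toNat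

lemma sigma_coord {f : ℤ} (hf : PF T f) :
    (((Finsupp.single 0 (D.d + f).toNat + Finsupp.single 1 (4 * D.d - f).toNat :
      Fin 2 →₀ ℕ) 0 : ℕ) : ℤ) = D.d + f ∧
    (((Finsupp.single 0 (D.d + f).toNat + Finsupp.single 1 (4 * D.d - f).toNat :
      Fin 2 →₀ ℕ) 1 : ℕ) : ℤ) = 4 * D.d - f := by
  have h1 := D.f_pos
  have h2 := D.f_le _ hf
  have h3 := D.le_F hf
  have h4 := D.d_gt
  have h5 := D.m_pos
  obtain ⟨b1, b2, b3, b4, b5, b6⟩ := D.bounds
  constructor
  · simp
    omega
  · simp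
    omega

lemma card_sigma : (sigma D).card = (pseudoFrobenius T).ncard := by
  have h1 : pseudoFrobenius T = (PFfin D : Set ℤ) := by
    ext z
    rw [pf_iff, Finset.mem_coe, mem_PFfin]
  rw [h1, Set.ncard_coe_finset, sigma, Finset.card_image_of_injOn]
  intro f hf f' hf' hff
  have h2 := (sigma_coord D ((mem_PFfin D).1 hf)).1
  have h3 := (sigma_coord D ((mem_PFfin D).1 hf')).1
  have h4 := congrArg (fun s : Fin 2 →₀ ℕ => ((s 0 : ℕ) : ℤ)) hff
  simp only at h4
  rw [h2, h3] at h4
  omega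

lemma mem_sigma (s : Fin 2 →₀ ℕ) : s ∈ sigma D ↔ s ∈ SS D ∧ ¬ inJ (SS D) (dd D) s ∧
    ∀ r ∈ SS D, r ≠ 0 → inJ (SS D) (dd D) (s + r) := by
  rw [socle_iff, sigma, Finset.mem_image]
  constructor
  · rintro ⟨f, hf, rfl⟩
    rw [mem_PFfin] at hf
    exact ⟨f, hf, (sigma_coord D hf).1, (sigma_coord D hf).2⟩
  · rintro ⟨f, hf, h1, h2⟩
    refine ⟨f, (mem_PFfin D).2 hf, ?_⟩
    apply exp_ext
    · rw [(sigma_coord D hf).1, h1]
    · rw [(sigma_coord D hf).2, h2]

include hlast hrange in
theorem coordRing_type : extLength (coordRing k a) (irrelevant k a) 2 =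
    (pseudoFrobenius T).ncard := by
  rw [← card_sigma D]
  have hA := mem_coordRing D k hlast hrange
  refine type_eq (coordRing k a).val Subtype.val_injective ?_ ⟨X 1 ^ dd D, memx (e0_mem D) hA⟩
    ⟨X 0 ^ dd D, memy (en_mem D) hA⟩ rfl rfl (irrelevant k a) ?_ (dd_pos D) (e0_mem D) (en_mem D)
    (cm_SS D) (sigma D) (mem_sigma D)
  · intro f
    rw [← hA]
    constructor
    · rintro ⟨z, rfl⟩
      exact z.2
    · intro hf
      exact ⟨⟨f, hf⟩, rfl⟩
  · intro z
    exact Iff.rfl

end

/-- Main theorem. -/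
theorem main (T : AddSubmonoid ℕ) (hT : {x | x ∉ T}.Finite)
    (ht : 1 < semigroupType T) :
    ∃ (n : ℕ) (a : Fin (n + 1) → ℕ), StrictMono a ∧ a 0 = 0 ∧ Finset.univ.gcd a = 1 ∧
      AddSubmonoid.closure (Set.range a) = T ∧
      ∀ (k : Type u) [Field k], IsACMOfType k a (semigroupType T) := by
  obtain ⟨D⟩ := exists_data hT (not_one_mem ht)
  obtain ⟨n, a, hmono, h0, hlast, hrange⟩ := exists_enum D
  have hcl : AddSubmonoid.closure (Set.range a) = T := by
    rw [hrange]
    exact closure_GG D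
  refine ⟨n, a, hmono, h0, ?_, hcl, fun k _ => ⟨coordRing_cm D k hlast hrange,
    coordRing_type D k hlast hrange⟩⟩
  -- the gcd
  have hdvd : ∀ x ∈ T, Finset.univ.gcd a ∣ x := by
    intro x hx
    rw [← hcl] at hx
    induction hx using AddSubmonoid.closure_induction with
    | mem x hx =>
      obtain ⟨i, rfl⟩ := hx
      exact Finset.gcd_dvd (Finset.mem_univ i)
    | zero => exact dvd_zero _
    | add x y _ _ hx hy => exact dvd_add hx hy
  obtain ⟨b1, b2, b3, b4, b5, b6⟩ := D.bounds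
  obtain ⟨N, hN⟩ := Int.eq_ofNat_of_zero_le (by omega : 0 ≤ D.F + 1)
  have hN' : D.F + 1 = (N : ℤ) := hN
  have h1 := hdvd N (tz_natCast.1 (D.gt _ (by omega)))
  have h2 := hdvd (N + 1) (tz_natCast.1 (D.gt _ (by push_cast; omega)))
  exact Nat.dvd_one.1 ((Nat.dvd_add_right h1).1 h2)

end

end Pool.Agent.Lib.MP_4f2529_ag
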